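import Pool.Agent.V8H26.TC.Wl

/-!
# Counting the irreducible polynomials modulo which a cubic has no root
-/

set_option autoImplicit false
set_option linter.all false
set_option maxHeartbeats 4000000

namespace Pool.Agent.V8H26.TC

open Polynomial Finset
open Pool.Agent.R410.PW (WC)
open Pool.Agent.H341R2.Sharp (Mon mem_Mon)

/-- `f` is a constant times a square -/
def ConstSq {k : Type} [Field k] (f : k[X]) : Prop := ∃ (c : k) (h : k[X]), f = C c * h ^ 2

section cnt

variable {k E : Type} [Field k] [Fintype k] [Field E] [Fintype E] [DecidableEq E] [Algebra k E]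

theorem quad_sum_square (hk : ringChar k ≠ 2) {f : k[X]} (hf0 : f ≠ 0) (hf : ConstSq f)
    (hev : Even (Module.finrank k E)) :
    |(∑ x : E, (quadraticChar E (aeval x f) : ℝ)) - Fintype.card E| ≤ f.natDegree := by
  classical
  obtain ⟨c, h, rfl⟩ := hf
  have hc : c ≠ 0 := by
    rintro rfl
    simp at hf0
  have hE : ringChar E ≠ 2 := by
    rwa [← Algebra.ringChar_eq k E]
  haveI : FiniteDimensional k E := Module.Finite.of_finite
  -- constants are squares
  have hsq : IsSquare (algebraMap k E c) := by
    have hc' : algebraMap k E c ≠ 0 := (_root_.map_ne_zero _).2 hc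
    rw [FiniteField.isSquare_iff hE hc']
    obtain ⟨m, hm⟩ := hev
    have hm0 : 0 < m := by
      have : 0 < Module.finrank k E := Module.finrank_pos
      omega
    have hcard : Fintype.card E = Fintype.card k ^ m * Fintype.card k ^ m := by
      rw [Module.card_eq_pow_finrank (K := k) (V := E), hm, pow_add]
    have hodd : Odd (Fintype.card k) := by
      rw [← Nat.not_even_iff_odd]
      intro he
      exact hk (by
        have := FiniteField.even_card_iff_char_two.2 (Nat.even_iff.1 he)
        exact this)
    set Q := Fintype.card k ^ m with hQ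
    have hQodd : Odd Q := hodd.pow
    obtain ⟨t, ht⟩ := hQodd
    have hdiv : ∃ s, Fintype.card E / 2 = (Fintype.card k - 1) * s := by
      have h1 : Fintype.card k - 1 ∣ Q - 1 := by
        have := Nat.sub_dvd_pow_sub_pow (Fintype.card k) 1 m
        rwa [one_pow] at this
      obtain ⟨w, hw⟩ := h1
      refine ⟨w * (t + 1), ?_⟩
      rw [hcard, ← mul_assoc, ← hw, ht]
      have : (2 * t + 1) * (2 * t + 1) = 2 * (2 * t * (t + 1)) + 1 := by ring
      rw [this]
      have h2 : 2 * t + 1 - 1 = 2 * t := by omega
      rw [h2]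
      omega
    obtain ⟨s, hs⟩ := hdiv
    rw [hs, ← map_pow, pow_mul, FiniteField.pow_card_sub_one_eq_one c hc, one_pow, map_one]
  have hpt : ∀ x : E, |(quadraticChar E (aeval x (C c * h ^ 2)) : ℝ) - 1| ≤
      if aeval x (C c * h ^ 2) = 0 then 1 else 0 := by
    intro x
    by_cases h0 : aeval x (C c * h ^ 2) = 0
    · rw [if_pos h0, h0, MulChar.map_zero]
      norm_num
    · rw [if_neg h0]
      have h1 : quadraticChar E (aeval x (C c * h ^ 2)) = 1 := by
        rw [quadraticChar_one_iff_isSquare h0]
        rw [map_mul, map_pow, aeval_C]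
        exact hsq.mul ⟨aeval x h, by ring⟩
      rw [h1]
      norm_num
  calc |(∑ x : E, (quadraticChar E (aeval x (C c * h ^ 2)) : ℝ)) - Fintype.card E|
      = |∑ x : E, ((quadraticChar E (aeval x (C c * h ^ 2)) : ℝ) - 1)| := by
        rw [sum_sub_distrib, sum_const, card_univ, nsmul_eq_mul, mul_one]
    _ ≤ ∑ x : E, |(quadraticChar E (aeval x (C c * h ^ 2)) : ℝ) - 1| := abs_sum_le_sum_abs _ _
    _ ≤ ∑ x : E, (if aeval x (C c * h ^ 2) = 0 then (1 : ℝ) else 0) := sum_le_sum fun x _ => hpt x
    _ ≤ (C c * h ^ 2).natDegree := by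
        rw [sum_boole]
        exact_mod_cast R939.FF.card_zeros (E := E) hf0

open Classical in
/-- the number of the parameters for which the cubic has no root -/
theorem noroot_bound (h6 : (6 : k) ≠ 0) {a b : k[X]} (hno : ∀ r : (AlgebraicClosure k)[X],
      r ^ 3 + a.map (algebraMap k (AlgebraicClosure k)) * r +
        b.map (algebraMap k (AlgebraicClosure k)) ≠ 0)
    (hδ : dsc a b ≠ 0) (hev : ConstSq (dsc a b) → Even (Module.finrank k E)) :
    |3 * ((univ.filter fun x : E => rts (aeval x a) (aeval x b) = ∅).card : ℝ) -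
      (if ConstSq (dsc a b) then 2 else 1) * Fintype.card E| ≤
      (WC 3 (max a.natDegree b.natDegree) (dsc a b).natDegree + 9 * (dsc a b).natDegree : ℕ) *
        Real.sqrt (Fintype.card E) := by
  have hk : ringChar k ≠ 2 := by
    intro h
    apply h6
    have h2 : (2 : k) = 0 := by
      have := ringChar.Nat.cast_ringChar (R := k)
      rw [h] at this
      exact_mod_cast this
    linear_combination 3 * h2
  have hE : ringChar E ≠ 2 := by
    rwa [← Algebra.ringChar_eq k E]
  haveI : FiniteDimensional k E := Module.Finite.of_finite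
  haveI : Algebra.IsAlgebraic k E := Algebra.IsAlgebraic.of_finite k E
  set δ := dsc a b with hδ'
  have hev1 : ∀ (x : E) (g : k[X]), (g.map (algebraMap k E)).eval x = aeval x g :=
    fun x g => eval_map_algebraMap _ _
  have hdm : dsc (a.map (algebraMap k E)) (b.map (algebraMap k E)) = δ.map (algebraMap k E) := by
    have := dsc_map (mapRingHom (algebraMap k E)) a b
    rw [coe_mapRingHom] at this
    exact this.symm
  have w := pts_bound (E := E) (a := a.map (algebraMap k E)) (b := b.map (algebraMap k E))
    (noroot_ext (E := E) hno) (by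
      rw [hdm]
      exact (Polynomial.map_ne_zero_iff (algebraMap k E).injective).2 hδ)
    (d := max a.natDegree b.natDegree) (e := δ.natDegree)
    (by rw [natDegree_map]; exact le_max_left _ _) (by rw [natDegree_map]; exact le_max_right _ _)
    (by rw [hdm, natDegree_map])
  simp only [hev1] at w
  rw [Nat.card_eq_fintype_card] at w
  have hzero := R939.FF.card_zeros (E := E) hδ
  -- pointwise
  have hpt : ∀ x : E, |(3 : ℝ) * (if rts (aeval x a) (aeval x b) = ∅ then 1 else 0) -
      (2 - ((rts (aeval x a) (aeval x b)).card : ℝ) + (quadraticChar E (aeval x δ) : ℝ))| ≤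
      4 * (if aeval x δ = 0 then 1 else 0) := by
    intro x
    have hdx : aeval x δ = dsc (aeval x a) (aeval x b) := dsc_map (aeval x : k[X] →ₐ[k] E).toRingHom a b
    by_cases h0 : aeval x δ = 0
    · rw [if_pos h0, h0, MulChar.map_zero]
      have hc : (rts (aeval x a) (aeval x b)).card ≤ 3 := by
        have h1 : rts (aeval x a) (aeval x b) ⊆
            (cubP (aeval x a) (aeval x b)).roots.toFinset := by
          intro y hy
          rw [Multiset.mem_toFinset, mem_roots (cubP_monic _ _).ne_zero, IsRoot.def, cubP_eval]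
          exact mem_rts.1 hy
        refine (card_le_card h1).trans ((Multiset.toFinset_card_le _).trans ((card_roots' _).trans ?_))
        rw [cubP_natDegree]
      have hc' : ((rts (aeval x a) (aeval x b)).card : ℝ) ≤ 3 := by exact_mod_cast hc
      have hc0 : (0 : ℝ) ≤ ((rts (aeval x a) (aeval x b)).card : ℝ) := by positivity
      rw [abs_le]
      split_ifs with hh
      · rw [hh, card_empty] 
        norm_num
      · constructor <;> push_cast <;> linarith
    · rw [if_neg h0]
      have h1 := noroot_count hE (α := aeval x a) (β := aeval x b) (by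
        rw [hdx] at h0
        exact h0)
      have h2 : ((3 : ℝ) * (if rts (aeval x a) (aeval x b) = ∅ then 1 else 0)) =
          2 - ((rts (aeval x a) (aeval x b)).card : ℝ) + (quadraticChar E (aeval x δ) : ℝ) := by
        have h3 : quadraticChar E (aeval x δ) =
            quadraticChar E (-(4 * aeval x a ^ 3 + 27 * aeval x b ^ 2)) := by
          rw [hdx]
          rfl
        rw [h3]
        have h4 := congrArg (Int.cast : ℤ → ℝ) h1
        push_cast at h4
        rw [← h4]
      rw [h2, sub_self, abs_zero]
      norm_num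
  have hsq : 1 ≤ Real.sqrt (Fintype.card E) := by
    rw [show (1 : ℝ) = Real.sqrt 1 by simp]
    apply Real.sqrt_le_sqrt
    have : 1 ≤ Fintype.card E := Fintype.card_pos
    exact_mod_cast this
  have hsum : |3 * ((univ.filter fun x : E => rts (aeval x a) (aeval x b) = ∅).card : ℝ) -
      (2 * (Fintype.card E : ℝ) - ((∑ x : E, (rts (aeval x a) (aeval x b)).card : ℕ) : ℝ) +
        ∑ x : E, (quadraticChar E (aeval x δ) : ℝ))| ≤ 4 * δ.natDegree := by
    have e1 : 3 * ((univ.filter fun x : E => rts (aeval x a) (aeval x b) = ∅).card : ℝ) -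
      (2 * (Fintype.card E : ℝ) - ((∑ x : E, (rts (aeval x a) (aeval x b)).card : ℕ) : ℝ) +
        ∑ x : E, (quadraticChar E (aeval x δ) : ℝ)) =
      ∑ x : E, ((3 : ℝ) * (if rts (aeval x a) (aeval x b) = ∅ then 1 else 0) -
      (2 - ((rts (aeval x a) (aeval x b)).card : ℝ) + (quadraticChar E (aeval x δ) : ℝ))) := by
      rw [sum_sub_distrib, ← mul_sum, sum_boole, sum_add_distrib, sum_sub_distrib, sum_const,
        card_univ, nsmul_eq_mul]
      push_cast
      ring
    rw [e1]
    refine (abs_sum_le_sum_abs _ _).trans ((sum_le_sum fun x _ => hpt x).trans ?_)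
    rw [← mul_sum, sum_boole]
    have : ((univ.filter fun x : E => aeval x δ = 0).card : ℝ) ≤ δ.natDegree := by
      exact_mod_cast hzero
    linarith
  have hquad : |(∑ x : E, (quadraticChar E (aeval x δ) : ℝ)) -
      (if ConstSq δ then 1 else 0) * Fintype.card E| ≤
        5 * δ.natDegree * Real.sqrt (Fintype.card E) := by
    by_cases hcs : ConstSq δ
    · rw [if_pos hcs, one_mul]
      refine (quad_sum_square hk hδ hcs (hev hcs)).trans ?_
      have : (0 : ℝ) ≤ δ.natDegree := by positivity
      nlinarith
    · rw [if_neg hcs, zero_mul, sub_zero]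
      refine R939.FF.sum_bound hk fun c h => ?_
      intro he
      exact hcs ⟨c, h, he⟩
  have hd1 : (4 : ℝ) * δ.natDegree ≤ 4 * δ.natDegree * Real.sqrt (Fintype.card E) :=
    le_mul_of_one_le_right (by positivity) hsq
  have w1 := abs_le.1 w
  have w2 := abs_le.1 hsum
  have w3 := abs_le.1 hquad
  push_cast
  rw [abs_le]
  split_ifs at w3 ⊢ with hcs
  · constructor <;> nlinarith [w1.1, w1.2, w2.1, w2.2, w3.1, w3.2]
  · constructor <;> nlinarith [w1.1, w1.2, w2.1, w2.2, w3.1, w3.2]

end cnt

section irred

variable {k E : Type} [Field k] [Fintype k] [Field E] [Fintype E] [Algebra k E]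

open Classical in
/-- the monic irreducible polynomials of degree `n` with the property `Q` -/
noncomputable def Pr (k : Type) [Field k] [Fintype k] (Q : k[X] → Prop) (n : ℕ) : Finset k[X] :=
  (Mon k n).filter fun P => Irreducible P ∧ Q P

theorem mem_Pr {Q : k[X] → Prop} {n : ℕ} {P : k[X]} :
    P ∈ Pr k Q n ↔ P.Monic ∧ Irreducible P ∧ P.natDegree = n ∧ Q P := by
  classical
  unfold Pr
  rw [mem_filter, mem_Mon]
  tauto

open Classical in
/-- the roots in `E` of an irreducible polynomial of degree `[E : k]` -/
theorem card_roots_irr {P : k[X]} (hi : Irreducible P) (hm : P.Monic)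
    (hn : P.natDegree = Module.finrank k E) [DecidableEq E] :
    (univ.filter fun x : E => minpoly k x = P).card = P.natDegree := by
  classical
  haveI : FiniteDimensional k E := Module.Finite.of_finite
  have hcard : Fintype.card E = Nat.card k ^ Module.finrank k E := by
    rw [Module.card_eq_pow_finrank (K := k) (V := E), Nat.card_eq_fintype_card]
  have hdvd : P ∣ X ^ (Nat.card k) ^ Module.finrank k E - X :=
    hi.natDegree_dvd_iff_dvd_X_pow_card_pow_sub_X.1 (by rw [hn])
  have hdvd' : P.map (algebraMap k E) ∣ X ^ Fintype.card E - X := by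
    have := map_dvd (mapRingHom (algebraMap k E)) hdvd
    rw [coe_mapRingHom] at this
    rw [hcard]
    simpa using this
  have hXne : (X ^ Fintype.card E - X : E[X]) ≠ 0 :=
    FiniteField.X_pow_card_sub_X_ne_zero _ Fintype.one_lt_card
  have hroots : (X ^ Fintype.card E - X : E[X]).roots = (univ : Finset E).val :=
    FiniteField.roots_X_pow_card_sub_X E
  have hsplX : (X ^ Fintype.card E - X : E[X]).Splits := by
    rw [splits_iff_card_roots, hroots, FiniteField.X_pow_card_sub_X_natDegree_eq _
      Fintype.one_lt_card]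
    rfl
  have hspl : (P.map (algebraMap k E)).Splits := hsplX.of_dvd hXne hdvd'
  have hle : (P.map (algebraMap k E)).roots ≤ (univ : Finset E).val := by
    rw [← hroots]
    exact Polynomial.roots.le_of_dvd hXne hdvd'
  have hnd : (P.map (algebraMap k E)).roots.Nodup := Multiset.nodup_of_le hle (univ : Finset E).nodup
  have hset : (univ.filter fun x : E => minpoly k x = P) =
      (P.map (algebraMap k E)).roots.toFinset := by
    ext x
    rw [mem_filter, Multiset.mem_toFinset, mem_roots (hm.map _).ne_zero, IsRoot.def,
      eval_map_algebraMap]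
    constructor
    · rintro ⟨-, h⟩
      rw [← h]
      exact minpoly.aeval _ _
    · intro h
      exact ⟨mem_univ _, (minpoly.eq_of_irreducible_of_monic hi h hm).symm⟩
  rw [hset, Multiset.toFinset_card_of_nodup hnd]
  have := hspl.natDegree_eq_card_roots
  rw [← this, natDegree_map]

/-- from elements of `E` to irreducible polynomials -/
theorem card_gen [DecidableEq E] (Q : k[X] → Prop) (c : E → Prop)
    (hcQ : ∀ x : E, (minpoly k x).natDegree = Module.finrank k E → (c x ↔ Q (minpoly k x)))
    [DecidablePred c] :
    (univ.filter fun x : E => (minpoly k x).natDegree = Module.finrank k E ∧ c x).card =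
      Module.finrank k E * (Pr k Q (Module.finrank k E)).card := by
  classical
  haveI : FiniteDimensional k E := Module.Finite.of_finite
  have hmap : ∀ x ∈ (univ.filter fun x : E => (minpoly k x).natDegree = Module.finrank k E ∧ c x),
      minpoly k x ∈ Pr k Q (Module.finrank k E) := by
    intro x hx
    rw [mem_filter] at hx
    have hint : IsIntegral k x := Algebra.IsIntegral.isIntegral x
    exact mem_Pr.2 ⟨minpoly.monic hint, minpoly.irreducible hint, hx.2.1, (hcQ x hx.2.1).1 hx.2.2⟩
  rw [card_eq_sum_card_fiberwise hmap]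
  have hfib : ∀ P ∈ Pr k Q (Module.finrank k E),
      ((univ.filter fun x : E => (minpoly k x).natDegree = Module.finrank k E ∧ c x).filter
        fun x => minpoly k x = P).card = Module.finrank k E := by
    intro P hP
    obtain ⟨hm, hi, hn, hQ⟩ := mem_Pr.1 hP
    have e := card_roots_irr (E := E) hi hm hn
    rw [hn] at e
    refine (congrArg card ?_).trans e
    ext x
    rw [mem_filter, mem_filter, mem_filter]
    constructor
    · rintro ⟨-, h⟩
      exact ⟨mem_univ _, h⟩
    · rintro ⟨-, h⟩
      refine ⟨⟨mem_univ _, ?_, ?_⟩, h⟩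
      · rw [h, hn]
      · refine (hcQ x (by rw [h, hn])).2 (by rw [h]; exact hQ)
  rw [sum_congr rfl hfib, sum_const, smul_eq_mul, mul_comm]

/-- the irreducible polynomials modulo which the cubic has no root -/
def NR {k : Type} [Field k] (a b P : k[X]) : Prop := ∀ r : k[X], ¬ P ∣ r ^ 3 + a * r + b

theorem nr_iff [DecidableEq E] {a b : k[X]} {x : E}
    (hx : (minpoly k x).natDegree = Module.finrank k E) :
    rts (aeval x a) (aeval x b) = ∅ ↔ NR a b (minpoly k x) := by
  haveI : FiniteDimensional k E := Module.Finite.of_finite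
  have hint : IsIntegral k x := Algebra.IsIntegral.isIntegral x
  have htop : IntermediateField.adjoin k {x} = ⊤ := by
    have := (Field.primitive_element_iff_minpoly_natDegree_eq k x).2 hx
    exact this
  have hsurj : ∀ y : E, ∃ r : k[X], aeval x r = y := by
    intro y
    have h1 : y ∈ IntermediateField.adjoin k {x} := by rw [htop]; trivial
    have h2 : y ∈ (IntermediateField.adjoin k {x}).toSubalgebra := h1
    rw [IntermediateField.adjoin_simple_toSubalgebra_of_isAlgebraic hint.isAlgebraic,
      Algebra.adjoin_singleton_eq_range_aeval] at h2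
    exact h2
  unfold NR
  constructor
  · intro h r hd
    have h1 : aeval x (r ^ 3 + a * r + b) = 0 := minpoly.dvd_iff.1 hd
    have h2 : aeval x r ∈ rts (aeval x a) (aeval x b) := by
      rw [mem_rts]
      simpa using h1
    rw [h] at h2
    exact notMem_empty _ h2
  · intro h
    rw [eq_empty_iff_forall_notMem]
    intro y hy
    obtain ⟨r, rfl⟩ := hsurj y
    refine h r (minpoly.dvd_iff.2 ?_)
    rw [mem_rts] at hy
    simpa using hy

end irred

section main

variable {k : Type} [Field k] [Fintype k]

open Classical in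
/-- **The density of the irreducible polynomials modulo which the cubic has no root.** -/
theorem density (h6 : (6 : k) ≠ 0) {a b : k[X]} (hno : ∀ r : (AlgebraicClosure k)[X],
      r ^ 3 + a.map (algebraMap k (AlgebraicClosure k)) * r +
        b.map (algebraMap k (AlgebraicClosure k)) ≠ 0)
    (hδ : dsc a b ≠ 0) : ∃ K : ℝ, ∀ n : ℕ, n ≠ 0 → (ConstSq (dsc a b) → Even n) →
    |3 * (n * ((Pr k (NR a b) n).card : ℝ)) -
      (if ConstSq (dsc a b) then 2 else 1) * (Fintype.card k : ℝ) ^ n| ≤
        K * Real.sqrt (Fintype.card k) ^ n := by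
  refine ⟨(WC 3 (max a.natDegree b.natDegree) (dsc a b).natDegree + 9 * (dsc a b).natDegree : ℕ) +
    3 * Fintype.card k, fun n hn hev => ?_⟩
  obtain ⟨p, hp⟩ := CharP.exists k
  haveI : Fact (Nat.Prime p) := ⟨CharP.char_is_prime k p⟩
  haveI : NeZero n := ⟨hn⟩
  let E := FiniteField.Extension k p n
  letI : Fintype E := Fintype.ofFinite E
  haveI : FiniteDimensional k E := Module.Finite.of_finite
  have hfr : Module.finrank k E = n := FiniteField.finrank_extension k p n
  have hcard : Fintype.card E = Fintype.card k ^ n := by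
    rw [Module.card_eq_pow_finrank (K := k) (V := E), hfr]
  have h1 := noroot_bound (E := E) h6 hno hδ (by rw [hfr]; exact hev)
  have hsq : Real.sqrt (Fintype.card E) = (Real.sqrt (Fintype.card k)) ^ n := by
    rw [hcard]
    push_cast
    rw [Real.sqrt_eq_iff_mul_self_eq (by positivity) (by positivity), ← mul_pow,
      Real.mul_self_sqrt (by positivity)]
  have h2 : (univ.filter fun x : E =>
    (minpoly k x).natDegree ≠ Module.finrank k E).card ≤
      Fintype.card k ^ (Module.finrank k E / 2 + 1) := R939.FF.card_small (F := k) (E := E)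
  have hq1 : (1 : ℝ) ≤ Fintype.card k := by exact_mod_cast Fintype.card_pos
  have h3 : ((univ.filter fun x : E => (minpoly k x).natDegree ≠ Module.finrank k E).card : ℝ) ≤
      Fintype.card k * (Real.sqrt (Fintype.card k)) ^ n := by
    have h4 : ((univ.filter fun x : E =>
        (minpoly k x).natDegree ≠ Module.finrank k E).card : ℝ) ≤
        (Fintype.card k : ℝ) ^ (n / 2 + 1) := by
      rw [hfr] at h2 ⊢
      exact_mod_cast h2
    refine h4.trans ?_
    rw [pow_succ, mul_comm]
    refine mul_le_mul_of_nonneg_left ?_ (by positivity)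
    have h5 : (Fintype.card k : ℝ) ^ (n / 2) = (Real.sqrt (Fintype.card k)) ^ (2 * (n / 2)) := by
      rw [pow_mul, Real.sq_sqrt (by positivity)]
    rw [h5]
    refine pow_le_pow_right₀ ?_ (Nat.mul_div_le n 2)
    rw [show (1 : ℝ) = Real.sqrt 1 by simp]
    exact Real.sqrt_le_sqrt hq1
  have h4 := card_gen (E := E) (NR a b) (fun x => rts (aeval x a) (aeval x b) = ∅)
    fun x hx => nr_iff hx
  rw [hfr] at h4
  -- compare the two sets
  have h5 : ((univ.filter fun x : E => rts (aeval x a) (aeval x b) = ∅).card : ℝ) ≤
      n * ((Pr k (NR a b) n).card : ℝ) +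
        ((univ.filter fun x : E => (minpoly k x).natDegree ≠ Module.finrank k E).card : ℝ) := by
    have : (univ.filter fun x : E => rts (aeval x a) (aeval x b) = ∅) ⊆
        (univ.filter fun x : E => (minpoly k x).natDegree = n ∧
          rts (aeval x a) (aeval x b) = ∅) ∪
        (univ.filter fun x : E => (minpoly k x).natDegree ≠ Module.finrank k E) := by
      intro x hx
      rw [mem_filter] at hx
      rw [mem_union, mem_filter, mem_filter, hfr]
      by_cases h : (minpoly k x).natDegree = n
      · exact Or.inl ⟨mem_univ _, h, hx.2⟩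
      · exact Or.inr ⟨mem_univ _, h⟩
    have h6 := (card_le_card this).trans (card_union_le _ _)
    rw [h4] at h6
    exact_mod_cast h6
  have h6' : (n * ((Pr k (NR a b) n).card : ℝ)) ≤
      ((univ.filter fun x : E => rts (aeval x a) (aeval x b) = ∅).card : ℝ) := by
    have : (univ.filter fun x : E => (minpoly k x).natDegree = n ∧
          rts (aeval x a) (aeval x b) = ∅) ⊆
        (univ.filter fun x : E => rts (aeval x a) (aeval x b) = ∅) := by
      intro x hx
      rw [mem_filter] at hx ⊢
      exact ⟨hx.1, hx.2.2⟩
    have h6 := card_le_card this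
    rw [h4] at h6
    exact_mod_cast h6
  rw [hsq, hcard] at h1
  push_cast at h1 ⊢
  have w1 := abs_le.1 h1
  rw [abs_le]
  constructor
  · nlinarith [w1.1, w1.2]
  · nlinarith [w1.1, w1.2, Real.sqrt_nonneg (Fintype.card k : ℝ),
      pow_nonneg (Real.sqrt_nonneg (Fintype.card k : ℝ)) n]

end main

end Pool.Agent.V8H26.TC
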