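import Mathlib

/-!
# Cubic polynomials over finite fields: the number of roots and the discriminant
-/

set_option autoImplicit false
set_option linter.all false

namespace Pool.Agent.V8H26.TC

open Polynomial Finset

section cub

variable {F : Type} [Field F] [Fintype F] [DecidableEq F]

/-- the roots of `x ^ 3 + α x + β` -/
def rts (α β : F) : Finset F := univ.filter fun x => x ^ 3 + α * x + β = 0

theorem mem_rts {α β x : F} : x ∈ rts α β ↔ x ^ 3 + α * x + β = 0 := by
  unfold rts
  rw [mem_filter]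
  simp

/-- the cubic polynomial -/
noncomputable def cubP {R : Type} [CommRing R] (α β : R) : R[X] := X ^ 3 + C α * X + C β

theorem cubP_natDegree {R : Type} [CommRing R] [Nontrivial R] (α β : R) :
    (cubP α β).natDegree = 3 := by
  unfold cubP
  compute_degree!

theorem cubP_monic {R : Type} [CommRing R] [Nontrivial R] (α β : R) : (cubP α β).Monic := by
  unfold cubP
  monicity!

theorem cubP_eval {R : Type} [CommRing R] (α β x : R) :
    (cubP α β).eval x = x ^ 3 + α * x + β := by
  unfold cubP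
  simp

/-- one root: the other factor -/
theorem factor {α β r x : F} (hr : r ^ 3 + α * r + β = 0) :
    x ^ 3 + α * x + β = (x - r) * (x ^ 2 + r * x + (α + r ^ 2)) := by
  linear_combination hr

theorem disc_factor {α β r : F} (hr : r ^ 3 + α * r + β = 0) :
    -(4 * α ^ 3 + 27 * β ^ 2) = (-3 * r ^ 2 - 4 * α) * (3 * r ^ 2 + α) ^ 2 := by
  have hb : β = -(r ^ 3 + α * r) := by linear_combination hr
  rw [hb]
  ring

/-- with a root, the discriminant decides -/
theorem card_of_root (h2 : (2 : F) ≠ 0) {α β r : F} (hr : r ^ 3 + α * r + β = 0)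
    (hd : -(4 * α ^ 3 + 27 * β ^ 2) ≠ 0) :
    ((rts α β).card = 3 ∧ IsSquare (-(4 * α ^ 3 + 27 * β ^ 2))) ∨
      ((rts α β).card = 1 ∧ ¬ IsSquare (-(4 * α ^ 3 + 27 * β ^ 2))) := by
  have hdf := disc_factor hr
  have hq0 : 3 * r ^ 2 + α ≠ 0 := by
    intro h
    rw [h] at hdf
    exact hd (by rw [hdf]; ring)
  have he0 : -3 * r ^ 2 - 4 * α ≠ 0 := by
    intro h
    rw [h] at hdf
    exact hd (by rw [hdf]; ring)
  have hsq : IsSquare (-(4 * α ^ 3 + 27 * β ^ 2)) ↔ IsSquare (-3 * r ^ 2 - 4 * α) := by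
    rw [hdf]
    constructor
    · rintro ⟨s, hs⟩
      refine ⟨s / (3 * r ^ 2 + α), ?_⟩
      rw [div_mul_div_comm, eq_div_iff (mul_ne_zero hq0 hq0), ← hs]
      ring
    · rintro ⟨s, hs⟩
      refine ⟨s * (3 * r ^ 2 + α), ?_⟩
      rw [hs]
      ring
  by_cases h : IsSquare (-3 * r ^ 2 - 4 * α)
  · left
    refine ⟨?_, hsq.2 h⟩
    obtain ⟨s, hs⟩ := h
    have hs0 : s ≠ 0 := by
      rintro rfl
      exact he0 (by rw [hs]; ring)
    have h22 : (2 : F) * 2⁻¹ = 1 := mul_inv_cancel₀ h2
    obtain ⟨x1, e1⟩ : ∃ x1 : F, 2 * x1 = -r + s :=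
      ⟨(-r + s) * 2⁻¹, by linear_combination (-r + s) * h22⟩
    obtain ⟨x2, e2⟩ : ∃ x2 : F, 2 * x2 = -r - s :=
      ⟨(-r - s) * 2⁻¹, by linear_combination (-r - s) * h22⟩
    have h4 : (4 : F) ≠ 0 := by
      have : (4 : F) = 2 * 2 := by norm_num
      rw [this]
      exact mul_ne_zero h2 h2
    have hfac : ∀ x : F, x ^ 2 + r * x + (α + r ^ 2) = (x - x1) * (x - x2) := by
      intro x
      have hsum : x1 + x2 = -r := by
        apply mul_left_cancel₀ h2
        linear_combination e1 + e2
      have hprod : x1 * x2 = α + r ^ 2 := by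
        apply mul_left_cancel₀ h4
        have : (2 * x1) * (2 * x2) = (-r + s) * (-r - s) := by rw [e1, e2]
        linear_combination this + hs
      linear_combination x * hsum - hprod
    have n12 : x1 ≠ x2 := by
      intro h
      have : 2 * x1 = 2 * x2 := by rw [h]
      rw [e1, e2] at this
      have : 2 * s = 0 := by linear_combination this
      rcases mul_eq_zero.1 this with h | h
      · exact h2 h
      · exact hs0 h
    have hr12 : (r - x1) * (r - x2) ≠ 0 := by
      rw [← hfac r]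
      have : r ^ 2 + r * r + (α + r ^ 2) = 3 * r ^ 2 + α := by ring
      rw [this]
      exact hq0
    have n1 : r ≠ x1 := fun h => hr12 (by rw [← h]; ring)
    have n2 : r ≠ x2 := fun h => hr12 (by rw [← h]; ring)
    have hset : rts α β = {r, x1, x2} := by
      ext x
      rw [mem_rts, factor hr, hfac x, mul_eq_zero, mul_eq_zero, sub_eq_zero, sub_eq_zero,
        sub_eq_zero, mem_insert, mem_insert, mem_singleton]
    rw [hset, card_insert_of_notMem, card_insert_of_notMem, card_singleton]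
    · rw [mem_singleton]
      exact n12
    · rw [mem_insert, mem_singleton, not_or]
      exact ⟨n1, n2⟩
  · right
    refine ⟨?_, fun h' => h (hsq.1 h')⟩
    have hset : rts α β = {r} := by
      ext x
      rw [mem_rts, factor hr, mul_eq_zero, sub_eq_zero, mem_singleton]
      constructor
      · rintro (h1 | h1)
        · exact h1
        · exfalso
          exact h ⟨2 * x + r, by linear_combination (-4) * h1⟩
      · intro h1
        exact Or.inl h1
    rw [hset, card_singleton]

/-- without roots the discriminant is a square -/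
theorem sq_of_noroot {α β : F} (hno : rts α β = ∅) :
    IsSquare (-(4 * α ^ 3 + 27 * β ^ 2)) := by
  classical
  set f : F[X] := cubP α β with hf
  have hirr : Irreducible f := by
    refine (cubP_monic α β).irreducible_iff_roots_eq_zero_of_degree_le_three
      (by rw [cubP_natDegree]; norm_num) (by rw [cubP_natDegree]) |>.2 ?_
    rw [Multiset.eq_zero_iff_forall_notMem]
    intro x hx
    rw [mem_roots (cubP_monic α β).ne_zero, IsRoot.def, cubP_eval] at hx
    have : x ∈ rts α β := mem_rts.2 hx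
    rw [hno] at this
    exact notMem_empty _ this
  haveI : Fact (Irreducible f) := ⟨hirr⟩
  let L := AdjoinRoot f
  haveI : Module.Finite F L := (cubP_monic α β).finite_adjoinRoot
  haveI : Finite L := Module.finite_of_finite F
  letI : Fintype L := Fintype.ofFinite L
  have hfr : Module.finrank F L = 3 := by
    have := (AdjoinRoot.powerBasis' (cubP_monic α β)).finrank
    rw [AdjoinRoot.powerBasis'_dim, cubP_natDegree] at this
    exact this
  set q := Fintype.card F with hq
  have hcardL : Fintype.card L = q ^ 3 := by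
    rw [Module.card_eq_pow_finrank (K := F) (V := L), hfr]
  obtain ⟨A, hA⟩ : ∃ A : L, A = algebraMap F L α := ⟨_, rfl⟩
  obtain ⟨B, hB⟩ : ∃ B : L, B = algebraMap F L β := ⟨_, rfl⟩
  obtain ⟨ρ, hroot⟩ : ∃ ρ : L, ρ ^ 3 + A * ρ + B = 0 := by
    refine ⟨AdjoinRoot.root f, ?_⟩
    have h1 : aeval (AdjoinRoot.root f) f = 0 := by rw [AdjoinRoot.aeval_eq, AdjoinRoot.mk_self]
    have h2 : aeval (AdjoinRoot.root f) (cubP α β) = 0 := by rw [← hf]; exact h1
    unfold cubP at h2
    rw [map_add, map_add, map_mul, map_pow, aeval_X, aeval_C, aeval_C] at h2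
    rw [hA, hB]
    exact h2
  have hfrob : ∀ x y : L, (x + y) ^ q = x ^ q + y ^ q := fun x y => by
    have := (FiniteField.frobeniusAlgHom F L).map_add x y
    simpa [FiniteField.frobeniusAlgHom_apply] using this
  have hfa : ∀ c : F, (algebraMap F L c) ^ q = algebraMap F L c := fun c => by
    rw [← map_pow, FiniteField.pow_card]
  have hsub : ∀ x y : L, (x - y) ^ q = x ^ q - y ^ q := fun x y => by
    have := (FiniteField.frobeniusAlgHom F L).map_sub x y
    simpa [FiniteField.frobeniusAlgHom_apply] using this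
  have hq0 : q ≠ 0 := Fintype.card_ne_zero
  have hstep : ∀ x : L, x ^ 3 + A * x + B = 0 → (x ^ q) ^ 3 + A * x ^ q + B = 0 := by
    intro x hx
    have h1 : (x ^ 3 + A * x + B) ^ q = 0 := by rw [hx, zero_pow hq0]
    rw [hfrob, hfrob, mul_pow, hA, hB, hfa, hfa] at h1
    rw [hA, hB, ← h1]
    ring
  obtain ⟨ρ1, hρ1⟩ : ∃ ρ1 : L, ρ1 = ρ ^ q := ⟨_, rfl⟩
  obtain ⟨ρ2, hρ2⟩ : ∃ ρ2 : L, ρ2 = ρ1 ^ q := ⟨_, rfl⟩
  have h3 : ρ2 ^ q = ρ := by
    rw [hρ2, hρ1, ← pow_mul, ← pow_mul]
    have := FiniteField.pow_card ρ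
    rw [hcardL] at this
    rw [show q * (q * q) = q ^ 3 by ring]
    exact this
  have r1 := hstep ρ hroot
  rw [← hρ1] at r1
  have r2 := hstep ρ1 r1
  rw [← hρ2] at r2
  -- elements fixed by the Frobenius map are constants
  have hfix : ∀ x : L, x ^ q = x → ∃ c : F, algebraMap F L c = x := by
    intro x hx
    by_contra hcon
    push Not at hcon
    have hpoly : (X ^ q - X : L[X]) ≠ 0 :=
      FiniteField.X_pow_card_sub_X_ne_zero _ Fintype.one_lt_card
    have hsub' : insert x (univ.image (algebraMap F L)) ⊆ (X ^ q - X : L[X]).roots.toFinset := by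
      intro y hy
      rw [Multiset.mem_toFinset, mem_roots hpoly, IsRoot.def, eval_sub, eval_pow, eval_X,
        sub_eq_zero]
      rcases mem_insert.1 hy with rfl | hy
      · exact hx
      · obtain ⟨c, -, rfl⟩ := mem_image.1 hy
        exact hfa c
    have h1 := card_le_card hsub'
    rw [card_insert_of_notMem, card_image_of_injective _ (algebraMap F L).injective,
      card_univ] at h1
    · have h2 := (Multiset.toFinset_card_le (X ^ q - X : L[X]).roots).trans (card_roots' _)
      rw [FiniteField.X_pow_card_sub_X_natDegree_eq _ Fintype.one_lt_card] at h2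
      omega
    · rw [mem_image]
      rintro ⟨c, -, hc⟩
      exact hcon c hc
  have n01 : ρ ≠ ρ1 := by
    intro h
    obtain ⟨c, hc⟩ := hfix ρ (by rw [← hρ1, h])
    rw [← hc, hA, hB, ← map_pow, ← map_mul, ← map_add, ← map_add, map_eq_zero] at hroot
    have : c ∈ rts α β := mem_rts.2 hroot
    rw [hno] at this
    exact notMem_empty _ this
  have n12 : ρ1 ≠ ρ2 := by
    intro h
    obtain ⟨c, hc⟩ := hfix ρ1 (by rw [← hρ2, h])
    rw [← hc, hA, hB, ← map_pow, ← map_mul, ← map_add, ← map_add, map_eq_zero] at r1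
    have : c ∈ rts α β := mem_rts.2 r1
    rw [hno] at this
    exact notMem_empty _ this
  have n20 : ρ2 ≠ ρ := by
    intro h
    obtain ⟨c, hc⟩ := hfix ρ2 (by rw [h3, h])
    rw [← hc, hA, hB, ← map_pow, ← map_mul, ← map_add, ← map_add, map_eq_zero] at r2
    have : c ∈ rts α β := mem_rts.2 r2
    rw [hno] at this
    exact notMem_empty _ this
  -- the square root of the discriminant
  obtain ⟨δ, hδ⟩ : ∃ δ : L, δ = (ρ - ρ1) * (ρ1 - ρ2) * (ρ2 - ρ) := ⟨_, rfl⟩
  have hδq : δ ^ q = δ := by
    rw [hδ, mul_pow, mul_pow, hsub, hsub, hsub, ← hρ1, ← hρ2, h3]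
    ring
  obtain ⟨s, hs⟩ := hfix δ hδq
  -- Vieta
  have v01 : ρ ^ 2 + ρ * ρ1 + ρ1 ^ 2 + A = 0 := by
    have : (ρ - ρ1) * (ρ ^ 2 + ρ * ρ1 + ρ1 ^ 2 + A) = 0 := by linear_combination hroot - r1
    rcases mul_eq_zero.1 this with h | h
    · exact absurd (sub_eq_zero.1 h) n01
    · exact h
  have v12 : ρ1 ^ 2 + ρ1 * ρ2 + ρ2 ^ 2 + A = 0 := by
    have : (ρ1 - ρ2) * (ρ1 ^ 2 + ρ1 * ρ2 + ρ2 ^ 2 + A) = 0 := by linear_combination r1 - r2
    rcases mul_eq_zero.1 this with h | h
    · exact absurd (sub_eq_zero.1 h) n12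
    · exact h
  have vs : ρ + ρ1 + ρ2 = 0 := by
    have : (ρ - ρ2) * (ρ + ρ1 + ρ2) = 0 := by linear_combination v01 - v12
    rcases mul_eq_zero.1 this with h | h
    · exact absurd (sub_eq_zero.1 h).symm n20
    · exact h
  have e2 : ρ2 = -ρ - ρ1 := by linear_combination vs
  have eA : A = -(ρ ^ 2 + ρ * ρ1 + ρ1 ^ 2) := by linear_combination v01
  have eB : B = -(ρ ^ 3 + A * ρ) := by linear_combination hroot
  have hδ2 : δ * δ = -(4 * A ^ 3 + 27 * B ^ 2) := by
    rw [hδ, eB, eA, e2]
    ring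
  refine ⟨s, (algebraMap F L).injective ?_⟩
  rw [map_mul, hs, hδ2, hA, hB]
  simp only [map_neg, map_add, map_mul, map_pow, map_ofNat]

/-- the number of roots and the quadratic character of the discriminant -/
theorem noroot_count (hF : ringChar F ≠ 2) {α β : F} (hd : -(4 * α ^ 3 + 27 * β ^ 2) ≠ 0) :
    (3 : ℤ) * (if rts α β = ∅ then 1 else 0) =
      2 - (rts α β).card + quadraticChar F (-(4 * α ^ 3 + 27 * β ^ 2)) := by
  have h2 : (2 : F) ≠ 0 := Ring.two_ne_zero hF
  by_cases hno : rts α β = ∅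
  · have h1 := sq_of_noroot hno
    have hx : quadraticChar F (-(4 * α ^ 3 + 27 * β ^ 2)) = 1 :=
      (quadraticChar_one_iff_isSquare hd).2 h1
    rw [if_pos hno, hno, card_empty, hx]
    norm_num
  · rw [if_neg hno]
    obtain ⟨r, hr⟩ := nonempty_iff_ne_empty.2 hno
    rcases card_of_root h2 (mem_rts.1 hr) hd with ⟨h1, h3⟩ | ⟨h1, h3⟩
    · have hx : quadraticChar F (-(4 * α ^ 3 + 27 * β ^ 2)) = 1 :=
        (quadraticChar_one_iff_isSquare hd).2 h3
      rw [h1, hx]
      norm_num
    · have hx : quadraticChar F (-(4 * α ^ 3 + 27 * β ^ 2)) = -1 :=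
        quadraticChar_neg_one_iff_not_isSquare.2 h3
      rw [h1, hx]
      norm_num

end cub

end Pool.Agent.V8H26.TC
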