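import Pool.Agent.TH639.B3.TwBd
import Pool.Agent.TH639.CK.Count

/-!
# The reduction modulo two of the `L`-functions of the quadratic twists
-/

set_option autoImplicit false
set_option linter.all false
set_option maxHeartbeats 4000000

namespace Pool.Agent.V8H26.TC

open PowerSeries FF Module
open Pool.Agent.W343.BSD Pool.Agent.W309.T3 Pool.Agent.H123R3.ZT Pool.Agent.W313.Gr
open Pool.Agent.TH639.B3 (twist_disc trace_twist disc_twist chi chi_pm)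

section loc

variable {k K : Type} [Field k] [Finite k] [Field K] [Algebra k K] [FF.IsFF k K] {v : Place k K}

/-- the twist by an element of odd valuation at a place of good reduction: additive reduction -/
theorem add_of_good (h6 : (6 : k) ≠ 0) {a b u : K} (hΔ : 4 * a ^ 3 + 27 * b ^ 2 ≠ 0) (hu : u ≠ 0)
    (hv : v.red (minDisc v a b) ≠ 0) (hodd : Odd (v.ord u)) :
    v.red (minA v (u ^ 2 * a) (u ^ 3 * b)) = 0 ∧
      v.red (minDisc v (u ^ 2 * a) (u ^ 3 * b)) = 0 := by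
  have hs := minScale_spec v (ab_of_disc hΔ)
  have hΔ' : 4 * (u ^ 2 * a) ^ 3 + 27 * (u ^ 3 * b) ^ 2 ≠ 0 := by
    rw [twist_disc]
    exact mul_ne_zero (pow_ne_zero 6 hu) hΔ
  have hab' := ab_of_disc hΔ'
  have hs' := minScale_spec v hab'
  obtain ⟨c, hc⟩ : ∃ c, c = minScale v a b := ⟨_, rfl⟩
  obtain ⟨c', hc'⟩ : ∃ c', c' = minScale v (u ^ 2 * a) (u ^ 3 * b) := ⟨_, rfl⟩
  unfold minDisc at hv ⊢
  unfold minA minB at hv ⊢
  rw [← hc] at hs hv
  rw [← hc'] at hs' ⊢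
  obtain ⟨w, hw⟩ : ∃ w, w = (c' / c) ^ 2 * u := ⟨_, rfl⟩
  have hcc : c' / c ≠ 0 := div_ne_zero hs'.1 hs.1
  have hw0 : w ≠ 0 := by rw [hw]; exact mul_ne_zero (pow_ne_zero 2 hcc) hu
  have hwo : Odd (v.ord w) := by
    rw [hw, v.ord_mul (pow_ne_zero 2 hcc) hu, v.ord_pow]
    exact Even.add_odd ⟨v.ord (c' / c), by push_cast; ring⟩ hodd
  have hc0 : c ≠ 0 := hs.1
  have e1 : c' ^ 4 * (u ^ 2 * a) = w ^ 2 * (c ^ 4 * a) := by
    rw [hw]
    field_simp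
  have e2 : c' ^ 6 * (u ^ 3 * b) = w ^ 3 * (c ^ 6 * b) := by
    rw [hw]
    field_simp
  have r1 : v.Reg (w ^ 2 * (c ^ 4 * a)) := by rw [← e1]; exact hs'.2.1
  have r2 : v.Reg (w ^ 3 * (c ^ 6 * b)) := by rw [← e2]; exact hs'.2.2.1
  rw [e1, e2]
  obtain ⟨A, hA⟩ : ∃ A, A = c ^ 4 * a := ⟨_, rfl⟩
  obtain ⟨B, hB⟩ : ∃ B, B = c ^ 6 * b := ⟨_, rfl⟩
  have rA : v.Reg A := by rw [hA]; exact hs.2.1
  have rB : v.Reg B := by rw [hB]; exact hs.2.2.1
  rw [← hA, ← hB] at hv ⊢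
  rw [← hA] at r1
  rw [← hB] at r2
  obtain ⟨j, hj⟩ : ∃ j, j = v.ord w := ⟨_, rfl⟩
  have hj1 : 1 ≤ j := by
    by_contra hcon
    push Not at hcon
    have hjn : j ≤ -1 := by
      rw [← hj] at hwo
      obtain ⟨i, hi⟩ := hwo
      omega
    have sA : Sm v 1 A := by
      by_cases h0 : A = 0
      · exact Or.inl h0
      · right
        rw [v.reg_iff (mul_ne_zero (pow_ne_zero 2 hw0) h0), v.ord_mul (pow_ne_zero 2 hw0) h0,
          v.ord_pow, ← hj] at r1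
        push_cast at r1
        omega
    have sB : Sm v 1 B := by
      by_cases h0 : B = 0
      · exact Or.inl h0
      · right
        rw [v.reg_iff (mul_ne_zero (pow_ne_zero 3 hw0) h0), v.ord_mul (pow_ne_zero 3 hw0) h0,
          v.ord_pow, ← hj] at r2
        push_cast at r2
        omega
    apply hv
    rw [red_disc rA rB, red_of_sm zero_lt_one sA, red_of_sm zero_lt_one sB]
    ring
  have t1 : Sm v 1 (w ^ 2 * A) := by
    have h2 := sm_mul v (TH639.B3.sm_pow (sm_ord v w) 2) (TH639.B3.sm_reg rA)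
    refine sm_mono v ?_ h2
    rw [← hj]
    push_cast
    omega
  have t2 : Sm v 1 (w ^ 3 * B) := by
    have h2 := sm_mul v (TH639.B3.sm_pow (sm_ord v w) 3) (TH639.B3.sm_reg rB)
    refine sm_mono v ?_ h2
    rw [← hj]
    push_cast
    omega
  refine ⟨red_of_sm zero_lt_one t1, ?_⟩
  rw [red_disc r1 r2, red_of_sm zero_lt_one t1, red_of_sm zero_lt_one t2]
  ring

theorem tw_disc_ne {a b u : K} (hΔ : 4 * a ^ 3 + 27 * b ^ 2 ≠ 0) (hu : u ≠ 0) :
    4 * (u ^ 2 * a) ^ 3 + 27 * (u ^ 3 * b) ^ 2 ≠ 0 := by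
  rw [twist_disc]
  exact mul_ne_zero (pow_ne_zero 6 hu) hΔ

theorem locML_odd_good (h6 : (6 : k) ≠ 0) {a b u : K} (hΔ : 4 * a ^ 3 + 27 * b ^ 2 ≠ 0)
    (hu : u ≠ 0) (hv : v.red (minDisc v a b) ≠ 0) (hodd : Odd (v.ord u)) :
    locML 2 v (u ^ 2 * a) (u ^ 3 * b) = 1 := by
  obtain ⟨h1, h2⟩ := add_of_good h6 hΔ hu hv hodd
  refine locML_add 2 v (tw_disc_ne hΔ hu) ?_ h1 h2
  have h3 := ne_RF v (three_ne h6)
  have e : (27 : v.RF) = ((3 : ℕ) : v.RF) ^ 3 := by norm_num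
  rw [e]
  exact pow_ne_zero 3 h3

open Classical in
theorem locML_even (h6 : (6 : k) ≠ 0) {a b u : K} (hΔ : 4 * a ^ 3 + 27 * b ^ 2 ≠ 0)
    (hu : u ≠ 0) (hev : ¬ Odd (v.ord u)) :
    locML 2 v (u ^ 2 * a) (u ^ 3 * b) = locML 2 v a b := by
  have hΔ' := tw_disc_ne hΔ hu
  have h1 : ((trace v (u ^ 2 * a) (u ^ 3 * b) : ℤ) : ZMod 2) = ((trace v a b : ℤ) : ZMod 2) := by
    have h2 := trace_twist (v := v) h6 (ab_of_disc hΔ) hu hev
    rw [S.trace_eq, S.trace_eq] at h2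
    rw [h2]
    rcases chi_pm (v := v) hev with ⟨h3, -⟩ | ⟨h3, -⟩
    · rw [h3, one_mul]
    · rw [h3, Int.cast_mul]
      have : ((-1 : ℤ) : ZMod 2) = 1 := by decide
      rw [this, one_mul]
  have h2 : v.red (minDisc v (u ^ 2 * a) (u ^ 3 * b)) ≠ 0 ↔ v.red (minDisc v a b) ≠ 0 := by
    rw [← S.ord_disc_iff v hΔ', ← S.ord_disc_iff v hΔ, disc_twist hΔ hu hev]
  rw [locML_eq, locML_eq, h1]
  by_cases h3 : v.red (minDisc v a b) ≠ 0
  · rw [if_pos h3, if_pos (h2.2 h3)]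
  · rw [if_neg h3, if_neg (fun h => h3 (h2.1 h))]

end loc

section glob

variable {k K : Type} [Field k] [Finite k] [Field K] [Algebra k K] [FF.IsFF k K]

/-- **The reduction modulo two of the `L`-function of a quadratic twist.** -/
theorem twist_mod (h6 : (6 : k) ≠ 0) {a b u : K} (hΔ : 4 * a ^ 3 + 27 * b ^ 2 ≠ 0)
    (hu : u ≠ 0) (B : Finset (Place k K)) (hB : ∀ v, v ∈ B ↔ Odd (v.ord u)) :
    redL 2 (S.Lfun k (u ^ 2 * a) (u ^ 3 * b)) *
        ∏ v ∈ B, (locML 2 v (u ^ 2 * a) (u ^ 3 * b) : PowerSeries (ZMod 2)) =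
      redL 2 (S.Lfun k a b) * ∏ v ∈ B, (locML 2 v a b : PowerSeries (ZMod 2)) := by
  have hΔ' := tw_disc_ne hΔ hu
  rw [S.lfun_eq hΔ, S.lfun_eq hΔ']
  have h1 := lfun_modL (k := k) 2 a b
  have h2 := lfun_modL (k := k) 2 (u ^ 2 * a) (u ^ 3 * b)
  have h3 := fin_factor' (fun n => places_fin (k := k) (K := K) n)
    (F := fun v : FF.Place k K => (locML 2 v (u ^ 2 * a) (u ^ 3 * b) : PowerSeries (ZMod 2)))
    (W := fun v : FF.Place k K => (locML 2 v a b : PowerSeries (ZMod 2)))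
    (fun v => const_locML 2 v _ _) (fun v => const_locML 2 v _ _) B (fun v hv => by
      show (locML 2 v (u ^ 2 * a) (u ^ 3 * b) : PowerSeries (ZMod 2)) = locML 2 v a b
      rw [locML_even h6 hΔ hu (fun h => hv ((hB v).2 h))])
  linear_combination (-redL 2 (Lfun k (u ^ 2 * a) (u ^ 3 * b)) *
      ∏ v ∈ B, (locML 2 v (u ^ 2 * a) (u ^ 3 * b) : PowerSeries (ZMod 2))) * h1 -
    redL 2 (Lfun k (u ^ 2 * a) (u ^ 3 * b)) * redL 2 (Lfun k a b) * h3 +
    (redL 2 (Lfun k a b) * ∏ v ∈ B, (locML 2 v a b : PowerSeries (ZMod 2))) * h2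

theorem odd_finite (u : K) : {v : Place k K | Odd (v.ord u)}.Finite := by
  refine (H525R3.FFp.finite_support (k := k) u).subset fun v hv => ?_
  intro h0
  rw [Set.mem_setOf_eq, h0] at hv
  exact (by decide : ¬ Odd (0 : ℤ)) hv

end glob

end Pool.Agent.V8H26.TC
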