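import Pool.Agent.V8H26.TC.Sqf
import Pool.Agent.V8H26.TC.Tw
import Pool.Agent.V8H26.TD.Fin

/-!
# The quadratic twists over `k(t)` by polynomials whose prime factors have odd trace
-/

set_option autoImplicit false
set_option linter.all false
set_option maxHeartbeats 4000000

namespace Pool.Agent.V8H26.TC

open Polynomial FF Module
open Pool.Agent.W343.BSD Pool.Agent.W309.RF Pool.Agent.H123R3.ZT
open Pool.Agent.W309.T3 (rm_binom)
open Pool.Agent.V8H26.TD (trace_bad)

section mult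

variable {k K : Type} [Field k] [Finite k] [Field K] [Algebra k K] [FF.IsFF k K]

open Classical in
/-- The multiplicity of the root `1` of the Euler factor at `v` modulo two: for good reduction
`2 twoPart (deg v)` if the trace `a_v` is even and `0` if it is odd; for multiplicative reduction
`twoPart (deg v)`, for additive reduction `0`. -/
noncomputable def oTwo (v : FF.Place k K) (a b : K) : ℕ :=
  if v.ord (minDisc v a b) = 0 then (if Even (S.trace v a b) then 2 * twoPart (S.deg v) else 0)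
  else if S.trace v a b = 0 then 0 else twoPart (S.deg v)

instance fact2 : Fact (Nat.Prime 2) := ⟨Nat.prime_two⟩

theorem neg_one_two : ((-1 : ℤ) : ZMod 2) = 1 := by decide

theorem one_ne_two : ¬ (1 : ZMod 2) = 0 := by decide

/-- the multiplicity of the root one -/
noncomputable def m2 (P : (ZMod 2)[X]) : ℕ := P.rootMultiplicity 1

theorem m2_mul {p q : (ZMod 2)[X]} (hp : p ≠ 0) (hq : q ≠ 0) : m2 (p * q) = m2 p + m2 q :=
  rm_mul 1 hp hq

theorem m2_prod {J : Type*} (s : Finset J) (f : J → (ZMod 2)[X]) (h : ∀ i ∈ s, f i ≠ 0) :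
    m2 (∏ i ∈ s, f i) = ∑ i ∈ s, m2 (f i) := rm_prod 1 s f h

theorem m2_pow {p : (ZMod 2)[X]} (hp : p ≠ 0) (n : ℕ) : m2 (p ^ n) = n * m2 p := rm_pow 1 hp n

theorem rm_X {n : ℕ} (hn : 0 < n) : (1 - X ^ n : (ZMod 2)[X]).rootMultiplicity 1 = twoPart n := by
  have h := rm_binom 2 (c := 1) (x := 1) one_ne_zero hn
  rw [map_one, one_mul, one_pow, mul_one, if_pos rfl] at h
  exact h

theorem two_parity (t : ℤ) : ((t : ℤ) : ZMod 2) = if Even t then 0 else 1 := by
  split_ifs with h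
  · obtain ⟨s, rfl⟩ := h
    push_cast
    exact CharTwo.add_self_eq_zero _
  · rw [Int.not_even_iff_odd] at h
    obtain ⟨s, rfl⟩ := h
    push_cast
    have : (2 : ZMod 2) = 0 := by decide
    rw [this, zero_mul, zero_add]

theorem rm_locML (h6 : (6 : k) ≠ 0) (v : Place k K) {a b : K}
    (hΔ : 4 * a ^ 3 + 27 * b ^ 2 ≠ 0) :
    (locML 2 v a b).rootMultiplicity 1 = oTwo v a b := by
  classical
  have hdeg := deg_pos' v
  have hone : ((Nat.card v.RF : ℕ) : ZMod 2) = 1 := by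
    refine card_odd ?_
    have := ne_RF v (two_ne h6)
    exact_mod_cast this
  unfold oTwo
  rw [S.deg_eq, S.trace_eq]
  by_cases hg : v.red (minDisc v a b) ≠ 0
  · rw [if_pos ((S.ord_disc_iff v hΔ).2 hg), locML_eq, if_pos hg, hone, two_parity]
    split_ifs with he
    · have e1 : (1 - C (0 : ZMod 2) * X ^ v.deg + C (1 : ZMod 2) * X ^ (2 * v.deg) : (ZMod 2)[X]) =
          1 - X ^ (2 * v.deg) := by
        rw [map_zero, zero_mul, sub_zero, map_one, one_mul, CharTwo.sub_eq_add]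
      rw [e1, rm_X (by omega), twoPart_mul (by norm_num) hdeg]
      congr 1
      unfold twoPart
      rw [padicValNat_self, pow_one]
    · apply rootMultiplicity_eq_zero
      rw [IsRoot.def]
      simp only [eval_add, eval_sub, eval_one, eval_mul, eval_C, eval_pow, eval_X, one_pow,
        mul_one, sub_self, zero_add]
      exact one_ne_two
  · have hb := not_not.1 hg
    rw [if_neg (fun h => hg ((S.ord_disc_iff v hΔ).1 h)), locML_eq, if_neg (not_not.2 hb), add_zero]
    rcases trace_bad h6 hΔ hb with h | h | h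
    · rw [h, if_pos rfl]
      simp
    · rw [h, if_neg one_ne_zero, Int.cast_one, map_one, one_mul, rm_X hdeg]
    · rw [h, if_neg (by norm_num)]
      rw [neg_one_two, map_one, one_mul, rm_X hdeg]

theorem locML_ne (h6 : (6 : k) ≠ 0) (v : Place k K) (a b : K) : locML 2 v a b ≠ 0 := by
  intro h
  have h1 := congrArg (Polynomial.eval 0) h
  rw [locML_eq] at h1
  have hdeg := deg_pos' v
  split_ifs at h1
  · simp [hdeg.ne'] at h1
  · simp [hdeg.ne'] at h1

theorem redL_ne (a b : K) (hΔ : 4 * a ^ 3 + 27 * b ^ 2 ≠ 0) : redL 2 (S.Lfun k a b) ≠ 0 := by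
  intro h
  have h1 := lfun_modL (k := k) 2 a b
  rw [S.lfun_eq hΔ] at h
  rw [h, zero_mul] at h1
  exact zero_ne_one h1

/-- the order at `1` modulo two -/
noncomputable def muTwo (P : ℤ[X]) : ℕ := (P.map (Int.castRingHom (ZMod 2))).rootMultiplicity 1

theorem prod_coe {J : Type*} (t : Finset J) (f : J → (ZMod 2)[X]) :
    ((∏ i ∈ t, f i : (ZMod 2)[X]) : PowerSeries (ZMod 2)) = ∏ i ∈ t, (f i : PowerSeries (ZMod 2)) :=
  map_prod (Polynomial.coeToPowerSeries.ringHom (R := ZMod 2)) f t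

theorem map_ne_of {P : ℤ[X]} {a b : K} (hΔ : 4 * a ^ 3 + 27 * b ^ 2 ≠ 0)
    (hP : S.Lfun k a b = (P : PowerSeries ℤ)) : P.map (Int.castRingHom (ZMod 2)) ≠ 0 := by
  intro h0
  have := redL_ne (k := k) a b hΔ
  rw [hP, redL_poly, h0, Polynomial.coe_zero] at this
  exact this rfl

theorem rm_lin {q : ℕ} (hq : ((q : ℕ) : ZMod 2) = 1) (m : ℕ) (G : ℤ[X])
    (hG : G.map (Int.castRingHom (ZMod 2)) ≠ 0) :
    (((1 - C (q : ℤ) * X) ^ m * G : ℤ[X]).map (Int.castRingHom (ZMod 2))).rootMultiplicity 1 =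
      m + muTwo G := by
  have e : ((1 - C (q : ℤ) * X) ^ m * G : ℤ[X]).map (Int.castRingHom (ZMod 2)) =
      (1 - X ^ 1) ^ m * G.map (Int.castRingHom (ZMod 2)) := by
    rw [Polynomial.map_mul, Polynomial.map_pow, Polynomial.map_sub, Polynomial.map_one,
      Polynomial.map_mul, map_C, map_X, pow_one]
    congr 3
    rw [eq_intCast]
    push_cast
    rw [hq, map_one, one_mul]
  have hne : (1 - X ^ 1 : (ZMod 2)[X]) ≠ 0 := by
    intro h
    have := congrArg (Polynomial.eval 0) h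
    simp at this
  have h1 : twoPart 1 = 1 := by simp [twoPart]
  have h2 : m2 (1 - X ^ 1 : (ZMod 2)[X]) = 1 := by
    unfold m2
    rw [rm_X one_pos, h1]
  show m2 _ = m + m2 _
  rw [e, m2_mul (pow_ne_zero m hne) hG, m2_pow hne, h2, mul_one]

/-- **The orders modulo two of the twists.** -/
theorem twist_orders (h6 : (6 : k) ≠ 0) {a b u : K} (hΔ : 4 * a ^ 3 + 27 * b ^ 2 ≠ 0)
    (hu : u ≠ 0) (B : Finset (Place k K)) (hB : ∀ v, v ∈ B ↔ Odd (v.ord u)) {P Q : ℤ[X]}
    (hP : S.Lfun k a b = (P : PowerSeries ℤ)) {m : ℕ}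
    (hQ : S.Lfun k (u ^ 2 * a) (u ^ 3 * b) =
      (((1 - C (Nat.card k : ℤ) * X) ^ m * Q : ℤ[X]) : PowerSeries ℤ)) :
    m + muTwo Q + ∑ v ∈ B, oTwo v (u ^ 2 * a) (u ^ 3 * b) = muTwo P + ∑ v ∈ B, oTwo v a b := by
  have hΔ' := tw_disc_ne hΔ hu
  have h1 := twist_mod h6 hΔ hu B hB
  have hP0 := map_ne_of hΔ hP
  have hQ0 := map_ne_of hΔ' hQ
  have hG0 : Q.map (Int.castRingHom (ZMod 2)) ≠ 0 := by
    intro h0
    apply hQ0
    rw [Polynomial.map_mul, h0, mul_zero]
  rw [hP, hQ, redL_poly, redL_poly, ← prod_coe, ← prod_coe, ← Polynomial.coe_mul,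
    ← Polynomial.coe_mul] at h1
  have h2 := Polynomial.coe_injective _ h1
  have hq : ((Nat.card k : ℕ) : ZMod 2) = 1 := by
    refine card_odd ?_
    have := two_ne h6
    exact_mod_cast this
  have h3 := congrArg m2 h2
  rw [m2_mul hQ0 (Finset.prod_ne_zero_iff.2 fun v _ => locML_ne h6 v _ _),
    m2_mul hP0 (Finset.prod_ne_zero_iff.2 fun v _ => locML_ne h6 v _ _),
    m2_prod _ _ (fun v _ => locML_ne h6 v _ _), m2_prod _ _ (fun v _ => locML_ne h6 v _ _)] at h3
  have e1 : m2 (((1 - C (Nat.card k : ℤ) * X) ^ m * Q : ℤ[X]).map (Int.castRingHom (ZMod 2))) =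
      m + muTwo Q := rm_lin hq m Q hG0
  have e2 : ∀ v : Place k K, m2 (locML 2 v (u ^ 2 * a) (u ^ 3 * b)) =
      oTwo v (u ^ 2 * a) (u ^ 3 * b) := fun v => rm_locML h6 v hΔ'
  have e3 : ∀ v : Place k K, m2 (locML 2 v a b) = oTwo v a b := fun v => rm_locML h6 v hΔ
  have e4 : m2 (P.map (Int.castRingHom (ZMod 2))) = muTwo P := rfl
  simp only [e1, e2, e3, e4] at h3
  exact h3

end mult

section rat

variable {k : Type} [Field k] [Finite k] {v : Place k (RatFunc k)}

theorem phi_pi (h : 0 ≤ v.ord RatFunc.X) {π : k[X]} (hp : π ≠ 0) :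
    phi h π = 0 ↔ 0 < v.ord (A π) := by
  rw [phi_eq, v.red_eq_zero_iff (fin_reg h π)]
  constructor
  · rintro (h1 | h1)
    · exact absurd h1 (A_ne hp)
    · exact h1
  · exact Or.inr

/-- residue classes of polynomials -/
theorem phi_surj (h : 0 ≤ v.ord RatFunc.X) : Function.Surjective (phi h) := by
  obtain ⟨π, hm, hirr, hord, hnn, hdvd, -⟩ := fin_exists h
  intro w
  obtain ⟨f, hf, rfl⟩ := v.red_surjective w
  by_cases hf0 : f = 0
  · exact ⟨0, by rw [map_zero, hf0, v.red_zero]⟩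
  obtain ⟨c, d, hc, hd, hcop, rfl⟩ := exists_frac f hf0
  have h1 := (v.reg_iff hf0).1 hf
  rw [v.ord_div (A_ne hc) (A_ne hd)] at h1
  have hd0 : ¬ π ∣ d := by
    intro h2
    have h3 := (hdvd d hd).2 h2
    have h4 : ¬ π ∣ c := fun h5 => hirr.not_isUnit (hcop.isUnit_of_dvd' h5 h2)
    have h5 := (hdvd c hc).not.2 h4
    omega
  obtain ⟨x, y, hxy⟩ := (hirr.coprime_iff_not_dvd).2 hd0
  have h6 : phi h y * phi h d = 1 := by
    have h7 : phi h π = 0 := by
      rw [phi_pi h hirr.ne_zero, hord]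
      norm_num
    have := congrArg (phi h) hxy
    rw [map_add, map_mul, map_mul, h7, mul_zero, zero_add, map_one] at this
    exact this
  refine ⟨c * y, ?_⟩
  have h7 : v.red (A c) = v.red (A c / A d) * v.red (A d) := by
    rw [← v.red_mul hf (fin_reg h d), div_mul_cancel₀ _ (A_ne hd)]
  rw [map_mul, phi_eq h c, h7, ← phi_eq h d]
  linear_combination (v.red (A c / A d)) * h6

omit [Finite k] in
/-- without a root modulo `P` the discriminant is prime to `P` -/
theorem nr_disc (h6 : (6 : k) ≠ 0) {a b P : k[X]} (hP : Irreducible P) (h : NR a b P) :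
    ¬ P ∣ 4 * a ^ 3 + 27 * b ^ 2 := by
  intro hd
  by_cases ha : P ∣ a
  · have h1 : P ∣ 27 * b ^ 2 := by
      have h2 : P ∣ 4 * a ^ 3 := (dvd_pow ha three_ne_zero).mul_left 4
      have h3 := dvd_sub hd h2
      rwa [add_sub_cancel_left] at h3
    have h3 : (3 : k) ≠ 0 := by
      intro h3
      apply h6
      linear_combination 2 * h3
    have h4 : P ∣ b ^ 2 := by
      have e : b ^ 2 = C ((27 : k)⁻¹) * (27 * b ^ 2) := by
        have h27 : (27 : k) ≠ 0 := by
          have : (27 : k) = 3 ^ 3 := by norm_num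
          rw [this]
          exact pow_ne_zero 3 h3
        have e2 : (27 : k[X]) = C (27 : k) := by rw [map_ofNat]
        rw [e2, ← mul_assoc, ← C_mul, inv_mul_cancel₀ h27, C_1, one_mul]
      rw [e]
      exact h1.mul_left _
    have h5 : P ∣ b := hP.prime.dvd_of_dvd_pow h4
    refine h 0 ?_
    simpa using h5
  · obtain ⟨x, s, hxs⟩ := (hP.coprime_iff_not_dvd).2 ha
    refine h (3 * b * s) ?_
    have e : (3 * b * s) ^ 3 + a * (3 * b * s) + b =
        b * s ^ 3 * (4 * a ^ 3 + 27 * b ^ 2) + P * (x * b * (2 * (a * s) + 1) ^ 2) := by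
      have e1 : 1 - a * s = x * P := by linear_combination -hxs
      have e2 : (3 * b * s) ^ 3 + a * (3 * b * s) + b - b * s ^ 3 * (4 * a ^ 3 + 27 * b ^ 2) =
          (1 - a * s) * (b * (2 * (a * s) + 1) ^ 2) := by ring
      rw [e1] at e2
      linear_combination e2
    rw [e]
    exact dvd_add (hd.mul_left _) (dvd_mul_right _ _)

theorem disc_A (a b : k[X]) : 4 * A a ^ 3 + 27 * A b ^ 2 = A (4 * a ^ 3 + 27 * b ^ 2) := by
  unfold A
  rw [map_add, map_mul, map_mul, map_pow, map_pow, map_ofNat, map_ofNat]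

/-- the Euler factor at a place without points of order two on the reduction -/
theorem fin_noroot (h6 : (6 : k) ≠ 0) {a b : k[X]} (hΔ : 4 * a ^ 3 + 27 * b ^ 2 ≠ 0)
    (h : 0 ≤ v.ord RatFunc.X) {π : k[X]} (hirr : Irreducible π)
    (hdvd : ∀ p : k[X], p ≠ 0 → (0 < v.ord (A p) ↔ π ∣ p)) (hnr : NR a b π) :
    v.red (minDisc v (A a) (A b)) ≠ 0 ∧ oTwo v (A a) (A b) = 0 := by
  have hΔ' : 4 * A a ^ 3 + 27 * A b ^ 2 ≠ 0 := by
    rw [disc_A]
    exact A_ne hΔ
  have hnn : ∀ p : k[X], 0 ≤ v.ord (A p) := fun p => by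
    by_cases hp : p = 0
    · rw [hp]
      unfold A
      rw [map_zero, v.ord_zero]
    · exact (v.reg_iff (A_ne hp)).1 (fin_reg h p)
  have hord : v.ord (4 * A a ^ 3 + 27 * A b ^ 2) = 0 := by
    rw [disc_A]
    have h1 := (hdvd _ hΔ).not.2 (nr_disc h6 hirr hnr)
    have h2 := hnn (4 * a ^ 3 + 27 * b ^ 2)
    omega
  have hg : v.red (minDisc v (A a) (A b)) ≠ 0 := good_of_ord v hΔ' (hnn a) (hnn b) hord
  refine ⟨hg, ?_⟩
  have hs := minScale_spec v (ab_of_disc hΔ')
  obtain ⟨c, hc⟩ : ∃ c, c = minScale v (A a) (A b) := ⟨_, rfl⟩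
  have hc0 : c ≠ 0 := by rw [hc]; exact hs.1
  have hco : v.ord c = 0 := by
    have h1 := (S.ord_disc_iff v hΔ').2 hg
    rw [minDisc_eq, ← hc, v.ord_mul (pow_ne_zero 12 hc0) hΔ', v.ord_pow, hord] at h1
    push_cast at h1
    omega
  have hcr : v.Reg c := (v.reg_iff hc0).2 hco.ge
  have hcn : v.red c ≠ 0 := by
    intro h0
    rcases (v.red_eq_zero_iff hcr).1 h0 with h1 | h1
    · exact hc0 h1
    · omega
  have hno : ¬ ∃ r : v.RF, r ^ 3 + v.red (minA v (A a) (A b)) * r + v.red (minB v (A a) (A b)) = 0 := by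
    rintro ⟨r, hr⟩
    obtain ⟨s, hs⟩ := phi_surj h (r / v.red c ^ 2)
    have hr2 : r = v.red c ^ 2 * phi h s := by
      rw [hs]
      field_simp
    have eA : v.red (minA v (A a) (A b)) = v.red c ^ 4 * phi h a := by
      unfold minA
      rw [← hc, v.red_mul (reg_pow hcr 4) (fin_reg h a), v.red_pow hcr, phi_eq]
    have eB : v.red (minB v (A a) (A b)) = v.red c ^ 6 * phi h b := by
      unfold minB
      rw [← hc, v.red_mul (reg_pow hcr 6) (fin_reg h b), v.red_pow hcr, phi_eq]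
    rw [eA, eB, hr2] at hr
    have h2 : v.red c ^ 6 * phi h (s ^ 3 + a * s + b) = 0 := by
      rw [map_add, map_add, map_mul, map_pow]
      linear_combination hr
    have h3 : phi h (s ^ 3 + a * s + b) = 0 := by
      rcases mul_eq_zero.1 h2 with h4 | h4
      · exact absurd h4 (pow_ne_zero 6 hcn)
      · exact h4
    refine hnr s ?_
    by_cases h0 : s ^ 3 + a * s + b = 0
    · rw [h0]
      exact dvd_zero _
    · exact (hdvd _ h0).1 ((phi_pi h h0).1 h3)
  rw [← rm_locML h6 v hΔ']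
  have e : locML 2 v (A a) (A b) = 1 + X ^ v.deg + X ^ (2 * v.deg) :=
    locMod_good_noRoot h6 v hg hno
  rw [e]
  apply rootMultiplicity_eq_zero
  rw [IsRoot.def]
  simp only [eval_add, eval_one, eval_pow, eval_X, one_pow]
  decide

/-- the twists by `D` -/
theorem rat_twist (h6 : (6 : k) ≠ 0) {a b D : k[X]} (hΔ : 4 * a ^ 3 + 27 * b ^ 2 ≠ 0)
    (hD : D ≠ 0) (hev : Even D.natDegree) (hnr : ∀ P : k[X], Irreducible P → P ∣ D → NR a b P)
    {P Q : ℤ[X]} (hP : S.Lfun k (A a) (A b) = (P : PowerSeries ℤ)) {m : ℕ}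
    (hQ : S.Lfun k (A D ^ 2 * A a) (A D ^ 3 * A b) =
      (((1 - C (Nat.card k : ℤ) * X) ^ m * Q : ℤ[X]) : PowerSeries ℤ)) :
    m + muTwo Q = muTwo P := by
  have hΔ' : 4 * A a ^ 3 + 27 * A b ^ 2 ≠ 0 := by
    rw [disc_A]
    exact A_ne hΔ
  have hB : ∀ v, v ∈ (odd_finite (k := k) (A D)).toFinset ↔ Odd (v.ord (A D)) := fun v => by
    rw [Set.Finite.mem_toFinset]
    rfl
  have h1 := twist_orders h6 hΔ' (A_ne hD) _ hB hP hQ
  have h2 : ∀ v ∈ (odd_finite (k := k) (A D)).toFinset,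
      oTwo v (A a) (A b) = 0 ∧ oTwo v (A D ^ 2 * A a) (A D ^ 3 * A b) = 0 := by
    intro v hv
    have hodd := (hB v).1 hv
    have hX : 0 ≤ v.ord RatFunc.X := by
      by_contra hX
      push Not at hX
      rw [inf_ord' hX hD, ← Int.not_even_iff_odd] at hodd
      apply hodd
      rw [even_neg]
      exact_mod_cast hev
    obtain ⟨π, hm, hirr, hord, hnn, hdvd, -⟩ := fin_exists hX
    have hπD : π ∣ D := by
      rw [← hdvd D hD]
      have := hnn D hD
      rcases this.lt_or_eq with h | h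
      · exact h
      · rw [← h] at hodd
        exact absurd hodd (by decide)
    obtain ⟨h3, h4⟩ := fin_noroot h6 hΔ hX hirr hdvd (hnr π hirr hπD)
    refine ⟨h4, ?_⟩
    rw [← rm_locML h6 v (tw_disc_ne hΔ' (A_ne hD)), locML_odd_good h6 hΔ' (A_ne hD) h3 hodd]
    exact rm_one 1
  rw [Finset.sum_eq_zero fun v hv => (h2 v hv).1, Finset.sum_eq_zero fun v hv => (h2 v hv).2,
    add_zero, add_zero] at h1
  exact h1

end rat

end Pool.Agent.V8H26.TC
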