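import Mathlib

/-!
# A lower bound for sequences
-/

set_option autoImplicit false
set_option linter.all false
set_option maxHeartbeats 4000000

namespace Pool.Agent.V8H26.TC

open Finset

theorem rpow_step {γ : ℝ} (h0 : 0 < γ) (h1 : γ ≤ 1) {j : ℕ} (hj : 1 ≤ j) :
    ((j + 1 : ℕ) : ℝ) ^ γ - (j : ℝ) ^ γ ≤ γ * (j : ℝ) ^ (γ - 1) := by
  have hj0 : (0 : ℝ) < j := by exact_mod_cast hj
  have e1 : ((j + 1 : ℕ) : ℝ) = j * (1 + 1 / j) := by
    push_cast
    field_simp
  have e2 : (j : ℝ) ^ (γ - 1) = (j : ℝ) ^ γ / j := by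
    rw [Real.rpow_sub hj0, Real.rpow_one]
  rw [e1, Real.mul_rpow hj0.le (by positivity), e2]
  have h2 : (1 + 1 / (j : ℝ)) ^ γ ≤ 1 + γ * (1 / j) :=
    rpow_one_add_le_one_add_mul_self (by
      have : (0 : ℝ) ≤ 1 / j := by positivity
      linarith) h0.le h1
  have h3 : (0 : ℝ) < (j : ℝ) ^ γ := Real.rpow_pos_of_pos hj0 γ
  calc (j : ℝ) ^ γ * (1 + 1 / (j : ℝ)) ^ γ - (j : ℝ) ^ γ
      ≤ (j : ℝ) ^ γ * (1 + γ * (1 / j)) - (j : ℝ) ^ γ := by
        have := mul_le_mul_of_nonneg_left h2 h3.le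
        linarith
    _ = γ * ((j : ℝ) ^ γ / j) := by ring

theorem rpow_tele {γ : ℝ} (h0 : 0 < γ) (h1 : γ ≤ 1) {m n : ℕ} (hm : 1 ≤ m) (hmn : m ≤ n) :
    ((n : ℕ) : ℝ) ^ γ - (m : ℝ) ^ γ ≤ ∑ j ∈ Ico m n, γ * (j : ℝ) ^ (γ - 1) := by
  induction n, hmn using Nat.le_induction with
  | base => simp
  | succ n hn ih =>
    rw [sum_Ico_succ_top hn]
    have := rpow_step h0 h1 (j := n) (by omega)
    linarith

/-- **The comparison.** -/
theorem seq_bound {γ : ℝ} (h0 : 0 < γ) (h1 : γ ≤ 1) {b e : ℕ → ℝ} {K r M ρ : ℝ}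
    (hr : 0 ≤ r) (hr1 : r < 1) (hK : 0 ≤ K) (hM : 0 ≤ M) (hρ : 0 ≤ ρ) (hρ1 : ρ < 1)
    (hb : ∀ n, 0 ≤ b n) (hb0 : b 0 = 1) (he0 : ∀ d, 0 ≤ e d)
    (he : ∀ d, 1 ≤ d → γ - K * r ^ d ≤ e d)
    (hrec : ∀ d1 n : ℕ, 1 ≤ d1 → 1 ≤ n →
      ∑ d ∈ Icc d1 n, e d * b (n - d) - M * ρ ^ d1 ≤ n * b n) :
    ∃ κ : ℝ, 0 < κ ∧ ∃ n0 : ℕ, ∀ n : ℕ, n0 ≤ n → κ * (n : ℝ) ^ (γ - 1) ≤ b n := by
  -- the choice of `d1`
  have t1 : Filter.Tendsto (fun d : ℕ => K * r ^ d) Filter.atTop (nhds (K * 0)) :=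
    (tendsto_pow_atTop_nhds_zero_of_lt_one hr hr1).const_mul K
  have t2 : Filter.Tendsto (fun d : ℕ => M * ρ ^ d) Filter.atTop (nhds (M * 0)) :=
    (tendsto_pow_atTop_nhds_zero_of_lt_one hρ hρ1).const_mul M
  rw [mul_zero] at t1 t2
  have g1 : ∀ᶠ d : ℕ in Filter.atTop, K * r ^ d < γ / 2 :=
    t1.eventually (gt_mem_nhds (by linarith))
  have g2 : ∀ᶠ d : ℕ in Filter.atTop, M * ρ ^ d < γ / 4 :=
    t2.eventually (gt_mem_nhds (by linarith))
  obtain ⟨d1, hd1⟩ := Filter.eventually_atTop.1 (g1.and (g2.and (Filter.eventually_ge_atTop 1)))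
  obtain ⟨hd1a, hd1b, hd1c⟩ := hd1 d1 le_rfl
  -- the constant
  set W : ℝ := (d1 : ℝ) ^ γ + (d1 : ℝ) ^ γ + K / (1 - r) + 1 with hW
  have hr' : 0 < 1 - r := by linarith
  have hW1 : 1 ≤ W := by
    rw [hW]
    have a1 : 0 ≤ (d1 : ℝ) ^ γ := by positivity
    have a2 : 0 ≤ K / (1 - r) := by positivity
    linarith
  have hW0 : 0 < W := by linarith
  refine ⟨γ / 4 / W, by positivity, d1, fun n => ?_⟩
  set κ := γ / 4 / W with hκ
  have hκ0 : 0 < κ := by positivity
  have hκW : κ * W = γ / 4 := by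
    rw [hκ]
    field_simp
  induction n using Nat.strong_induction_on with
  | _ n ih =>
    intro hn
    have hn1 : 1 ≤ n := hd1c.trans hn
    have hn0 : (0 : ℝ) < n := by exact_mod_cast hn1
    have hr1' := hrec d1 n hd1c hn1
    -- the term `d = n` and the other terms
    have hsplit : e n * b 0 + ∑ d ∈ Ico d1 n, e d * b (n - d) =
        ∑ d ∈ Icc d1 n, e d * b (n - d) := by
      rw [← Finset.Ico_insert_right hn, sum_insert (by simp), Nat.sub_self]
    have hen : γ / 2 ≤ e n := by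
      have a1 := he n hn1
      have a2 := (hd1 n hn).1
      linarith
    -- the main part of the sum
    have hmain : κ * ((n : ℝ) ^ γ - W) ≤ ∑ d ∈ Ico d1 n, e d * b (n - d) := by
      by_cases h2 : n < 2 * d1
      · have a1 : (n : ℝ) ^ γ ≤ (d1 : ℝ) ^ γ + (d1 : ℝ) ^ γ := by
          have a2 : (n : ℝ) ≤ d1 + d1 := by
            have : n ≤ d1 + d1 := by omega
            exact_mod_cast this
          refine (Real.rpow_le_rpow hn0.le a2 h0.le).trans ?_
          exact Real.rpow_add_le_add_rpow (by positivity) (by positivity) h0.le h1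
        have a3 : κ * ((n : ℝ) ^ γ - W) ≤ 0 := by
          apply mul_nonpos_of_nonneg_of_nonpos hκ0.le
          rw [hW]
          have a4 : 0 ≤ K / (1 - r) := by positivity
          linarith
        refine a3.trans (sum_nonneg fun d _ => mul_nonneg (he0 d) (hb _))
      · push Not at h2
        -- the terms with `n - d ≥ d1`
        have b1 : ∑ d ∈ Ico d1 (n - d1 + 1), e d * b (n - d) ≤ ∑ d ∈ Ico d1 n, e d * b (n - d) := by
          refine sum_le_sum_of_subset_of_nonneg ?_ fun d _ _ => mul_nonneg (he0 d) (hb _)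
          intro d hd
          rw [mem_Ico] at hd ⊢
          omega
        refine le_trans ?_ b1
        have b2 : ∑ d ∈ Ico d1 (n - d1 + 1), κ * (γ * ((n - d : ℕ) : ℝ) ^ (γ - 1) - K * r ^ d) ≤
            ∑ d ∈ Ico d1 (n - d1 + 1), e d * b (n - d) := by
          refine sum_le_sum fun d hd => ?_
          rw [mem_Ico] at hd
          have c1 := ih (n - d) (by omega) (by omega)
          have c2 := he d (by omega)
          have c3 : (0 : ℝ) ≤ ((n - d : ℕ) : ℝ) ^ (γ - 1) := by positivity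
          have c4 : ((n - d : ℕ) : ℝ) ^ (γ - 1) ≤ 1 := by
            apply Real.rpow_le_one_of_one_le_of_nonpos
            · have : 1 ≤ n - d := by omega
              exact_mod_cast this
            · linarith
          have c5 : 0 ≤ K * r ^ d := by positivity
          calc κ * (γ * ((n - d : ℕ) : ℝ) ^ (γ - 1) - K * r ^ d)
              ≤ κ * ((γ - K * r ^ d) * ((n - d : ℕ) : ℝ) ^ (γ - 1)) := by
                apply mul_le_mul_of_nonneg_left _ hκ0.le
                nlinarith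
            _ ≤ κ * (e d * ((n - d : ℕ) : ℝ) ^ (γ - 1)) := by
                apply mul_le_mul_of_nonneg_left _ hκ0.le
                exact mul_le_mul_of_nonneg_right c2 c3
            _ = e d * (κ * ((n - d : ℕ) : ℝ) ^ (γ - 1)) := by ring
            _ ≤ e d * b (n - d) := mul_le_mul_of_nonneg_left c1 (he0 d)
        refine le_trans ?_ b2
        rw [← mul_sum]
        apply mul_le_mul_of_nonneg_left _ hκ0.le
        rw [sum_sub_distrib]
        -- reflect the first sum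
        have b3 : ∑ d ∈ Ico d1 (n - d1 + 1), γ * ((n - d : ℕ) : ℝ) ^ (γ - 1) =
            ∑ j ∈ Ico d1 (n - d1 + 1), γ * (j : ℝ) ^ (γ - 1) := by
          have := sum_Ico_reflect (fun j : ℕ => γ * (j : ℝ) ^ (γ - 1)) d1 (m := n - d1 + 1)
            (n := n) (by omega)
          rw [this, show n + 1 - (n - d1 + 1) = d1 by omega, show n + 1 - d1 = n - d1 + 1 by omega]
        have b4 := rpow_tele h0 h1 (m := d1) (n := n - d1 + 1) hd1c (by omega)
        have b5 : (n : ℝ) ^ γ ≤ ((n - d1 + 1 : ℕ) : ℝ) ^ γ + (d1 : ℝ) ^ γ := by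
          have a2 : (n : ℝ) ≤ ((n - d1 + 1 : ℕ) : ℝ) + d1 := by
            have : n ≤ n - d1 + 1 + d1 := by omega
            exact_mod_cast this
          refine (Real.rpow_le_rpow hn0.le a2 h0.le).trans ?_
          exact Real.rpow_add_le_add_rpow (by positivity) (by positivity) h0.le h1
        have b6 : ∑ d ∈ Ico d1 (n - d1 + 1), K * r ^ d ≤ K / (1 - r) := by
          rw [← mul_sum, div_eq_mul_inv]
          apply mul_le_mul_of_nonneg_left _ hK
          rw [← tsum_geometric_of_lt_one hr hr1]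
          exact Summable.sum_le_tsum _ (fun i _ => by positivity)
            (summable_geometric_of_lt_one hr hr1)
        rw [b3, hW]
        linarith
    have hfin : κ * (n : ℝ) ^ γ ≤ n * b n := by
      rw [hb0, mul_one] at hsplit
      have : κ * ((n : ℝ) ^ γ - W) = κ * (n : ℝ) ^ γ - γ / 4 := by
        rw [mul_sub, hκW]
      linarith
    have e2 : (n : ℝ) ^ (γ - 1) = (n : ℝ) ^ γ / n := by
      rw [Real.rpow_sub hn0, Real.rpow_one]
    rw [e2, ← mul_div_assoc, div_le_iff₀ hn0]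
    linarith

end Pool.Agent.V8H26.TC
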