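import Pool.Agent.V8H26.TC.Cnt
import Pool.Agent.V8H26.TC.Seq
import Pool.Agent.TH943.LG.Bd

/-!
# Counting the squarefree polynomials all of whose prime factors lie in a given set
-/

set_option autoImplicit false
set_option linter.all false
set_option maxHeartbeats 4000000

namespace Pool.Agent.V8H26.TC

open Polynomial Finset
open Pool.Agent.H341R2.Sharp (Mon mem_Mon)
open Pool.Agent.TH943.LG (primes mem_primes)

section sqf

variable {k : Type} [Field k] [Fintype k]

open Classical in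
/-- The monic squarefree polynomials of degree `n` whose monic irreducible factors have the
property `Q`. -/
noncomputable def Sf (k : Type) [Field k] [Fintype k] (Q : k[X] → Prop) (n : ℕ) : Finset k[X] :=
  (Mon k n).filter fun D => Squarefree D ∧ ∀ P : k[X], P.Monic → Irreducible P → P ∣ D → Q P

theorem mem_Sf {Q : k[X] → Prop} {n : ℕ} {D : k[X]} :
    D ∈ Sf k Q n ↔ D.Monic ∧ D.natDegree = n ∧ Squarefree D ∧
      ∀ P : k[X], P.Monic → Irreducible P → P ∣ D → Q P := by
  classical
  unfold Sf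
  rw [mem_filter, mem_Mon]
  tauto

theorem card_Mon (n : ℕ) : (Mon k n).card ≤ Fintype.card k ^ n := by
  classical
  have h : (Mon k n).card ≤ (univ : Finset (Fin n → k)).card := by
    refine card_le_card_of_injOn (fun D => fun i : Fin n => D.coeff i) (fun _ _ => mem_coe.2 (mem_univ _)) ?_
    intro D hD D' hD' h
    obtain ⟨h1, h2⟩ := mem_Mon.1 (mem_coe.1 hD)
    obtain ⟨h1', h2'⟩ := mem_Mon.1 (mem_coe.1 hD')
    ext i
    rcases lt_trichotomy i n with hi | hi | hi
    · exact congrFun h ⟨i, hi⟩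
    · rw [hi]
      have e1 : D.coeff n = 1 := by rw [← h2]; exact h1
      have e2 : D'.coeff n = 1 := by rw [← h2']; exact h1'
      rw [e1, e2]
    · rw [coeff_eq_zero_of_natDegree_lt (by omega), coeff_eq_zero_of_natDegree_lt (by omega)]
  rw [card_univ, Fintype.card_fun, Fintype.card_fin] at h
  exact h

theorem card_Sf_le (Q : k[X] → Prop) (n : ℕ) : (Sf k Q n).card ≤ Fintype.card k ^ n := by
  classical
  refine le_trans (card_le_card ?_) (card_Mon n)
  unfold Sf
  exact filter_subset _ _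

theorem card_Sf_zero (Q : k[X] → Prop) : (Sf k Q 0).card = 1 := by
  have : Sf k Q 0 = {1} := by
    ext D
    rw [mem_Sf, mem_singleton]
    constructor
    · rintro ⟨h1, h2, -⟩
      exact h1.natDegree_eq_zero.1 h2
    · rintro rfl
      exact ⟨monic_one, natDegree_one, squarefree_one, fun P hm hP hd =>
        absurd (isUnit_of_dvd_one hd) hP.not_isUnit⟩
  rw [this, card_singleton]

/-- the degrees of the prime factors -/
theorem sum_deg {D : k[X]} (hm : D.Monic) (hs : Squarefree D) :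
    ∑ P ∈ primes D, P.natDegree = D.natDegree := by
  classical
  have h0 := hm.ne_zero
  have hnd : (UniqueFactorizationMonoid.normalizedFactors D).Nodup :=
    (UniqueFactorizationMonoid.squarefree_iff_nodup_normalizedFactors h0).1 hs
  have h1 : (UniqueFactorizationMonoid.normalizedFactors D).prod = D := by
    rw [UniqueFactorizationMonoid.prod_normalizedFactors_eq h0, hm.normalize_eq_self]
  have h2 : ∑ P ∈ primes D, P.natDegree =
      ((UniqueFactorizationMonoid.normalizedFactors D).map natDegree).sum := by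
    unfold primes
    rw [Finset.sum_multiset_map_count]
    refine sum_congr rfl fun P hP => ?_
    rw [Multiset.mem_toFinset] at hP
    rw [Multiset.count_eq_one_of_mem hnd hP, one_smul]
  rw [h2]
  conv_rhs => rw [← h1]
  rw [natDegree_multiset_prod_of_monic]
  intro P hP
  have hi := UniqueFactorizationMonoid.irreducible_of_normalized_factor P hP
  rw [← UniqueFactorizationMonoid.normalize_normalized_factor P hP]
  exact monic_normalize hi.ne_zero

/-- multiplication by a prime -/
theorem mul_mem_Sf {Q : k[X] → Prop} {d n : ℕ} {P D : k[X]} (hP : P ∈ Pr k Q d)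
    (hD : D ∈ Sf k Q n) (hPD : ¬ P ∣ D) : P * D ∈ Sf k Q (d + n) := by
  obtain ⟨p1, p2, p3, p4⟩ := mem_Pr.1 hP
  obtain ⟨d1, d2, d3, d4⟩ := mem_Sf.1 hD
  refine mem_Sf.2 ⟨p1.mul d1, ?_, ?_, ?_⟩
  · rw [p1.natDegree_mul d1, p3, d2]
  · have hcop : IsRelPrime P D := (p2.isRelPrime_iff_not_dvd).2 hPD
    exact (squarefree_mul_iff).2 ⟨hcop, p2.squarefree, d3⟩
  · intro R hR1 hR2 hR3
    rcases hR2.prime.dvd_or_dvd hR3 with h | h
    · have : R = P := eq_of_monic_of_associated hR1 p1 (hR2.associated_of_dvd p2 h)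
      rw [this]
      exact p4
    · exact d4 R hR1 hR2 h

open Classical in
/-- the multiples of a prime -/
theorem card_dvd_le {Q : k[X] → Prop} {d n : ℕ} {P : k[X]} (hP : P ∈ Pr k Q d) :
    (((Sf k Q n).filter fun D => P ∣ D).card : ℝ) ≤
      (Fintype.card k : ℝ) ^ n / (Fintype.card k : ℝ) ^ d := by
  obtain ⟨p1, p2, p3, p4⟩ := mem_Pr.1 hP
  have hq : (0 : ℝ) < Fintype.card k := by exact_mod_cast Fintype.card_pos
  by_cases hdn : d ≤ n
  · rw [le_div_iff₀ (by positivity), ← Nat.sub_add_cancel hdn, pow_add]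
    apply mul_le_mul_of_nonneg_right _ (by positivity)
    have h1 : ((Sf k Q (n - d + d)).filter fun D => P ∣ D).card ≤ (Mon k (n - d)).card := by
      refine card_le_card_of_injOn (fun D => D /ₘ P) ?_ ?_
      · intro D hD
        obtain ⟨hD1, hD2⟩ := mem_filter.1 (mem_coe.1 hD)
        obtain ⟨e1, e2, -⟩ := mem_Sf.1 hD1
        obtain ⟨R, rfl⟩ := hD2
        have hR : R.Monic := p1.of_mul_monic_left e1
        rw [mem_coe, mem_Mon]
        simp only
        rw [mul_divByMonic_cancel_left _ p1]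
        refine ⟨hR, ?_⟩
        rw [p1.natDegree_mul hR, p3] at e2
        omega
      · intro D hD D' hD' h
        obtain ⟨R, hR⟩ := (mem_filter.1 (mem_coe.1 hD)).2
        obtain ⟨R', hR'⟩ := (mem_filter.1 (mem_coe.1 hD')).2
        simp only at h
        rw [hR, hR', mul_divByMonic_cancel_left _ p1, mul_divByMonic_cancel_left _ p1] at h
        rw [hR, hR', h]
    have h2 := h1.trans (card_Mon (k := k) (n - d))
    exact_mod_cast h2
  · have h1 : ((Sf k Q n).filter fun D => P ∣ D) = ∅ := by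
      rw [filter_eq_empty_iff]
      intro D hD hPD
      obtain ⟨e1, e2, -⟩ := mem_Sf.1 hD
      have := natDegree_le_of_dvd hPD e1.ne_zero
      omega
    rw [h1, card_empty, Nat.cast_zero]
    positivity

open Classical in
/-- the squarefree polynomials divisible by a prime -/
theorem card_dvd_ge {Q : k[X] → Prop} {d n : ℕ} {P : k[X]} (hP : P ∈ Pr k Q d) (hdn : d ≤ n) :
    ((Sf k Q (n - d)).card : ℝ) - (Fintype.card k : ℝ) ^ (n - d) / (Fintype.card k : ℝ) ^ d ≤
      (((Sf k Q n).filter fun D => P ∣ D).card : ℝ) := by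
  obtain ⟨p1, p2, p3, p4⟩ := mem_Pr.1 hP
  have h1 := card_dvd_le (n := n - d) hP
  have h2 : ((Sf k Q (n - d)).filter fun D => ¬ P ∣ D).card ≤
      ((Sf k Q n).filter fun D => P ∣ D).card := by
    refine card_le_card_of_injOn (fun D => P * D) ?_ ?_
    · intro D hD
      obtain ⟨hD1, hD2⟩ := mem_filter.1 (mem_coe.1 hD)
      rw [mem_coe, mem_filter]
      have h3 := mul_mem_Sf hP hD1 hD2
      rw [show d + (n - d) = n by omega] at h3
      exact ⟨h3, dvd_mul_right _ _⟩
    · intro D hD D' hD' h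
      exact mul_left_cancel₀ p1.ne_zero h
  have h3 := card_filter_add_card_filter_not (s := Sf k Q (n - d)) (p := fun D => P ∣ D)
  have h3' : (((Sf k Q (n - d)).filter fun D => P ∣ D).card : ℝ) +
      (((Sf k Q (n - d)).filter fun D => ¬ P ∣ D).card : ℝ) = ((Sf k Q (n - d)).card : ℝ) := by
    exact_mod_cast h3
  have h2' : (((Sf k Q (n - d)).filter fun D => ¬ P ∣ D).card : ℝ) ≤
      (((Sf k Q n).filter fun D => P ∣ D).card : ℝ) := by exact_mod_cast h2
  linarith

open Classical in
/-- **the recursive inequality** -/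
theorem sqf_rec (Q : k[X] → Prop) (n : ℕ) (I : Finset ℕ) (hI : ∀ d ∈ I, 1 ≤ d ∧ d ≤ n) :
    ∑ d ∈ I, (d * ((Pr k Q d).card : ℝ)) * (((Sf k Q (n - d)).card : ℝ) -
      (Fintype.card k : ℝ) ^ (n - d) / (Fintype.card k : ℝ) ^ d) ≤
        n * ((Sf k Q n).card : ℝ) := by
  have h1 : ∑ D ∈ Sf k Q n, ∑ d ∈ I, ∑ P ∈ Pr k Q d, (if P ∣ D then d else 0) ≤
      n * (Sf k Q n).card := by
    rw [mul_comm, ← smul_eq_mul, ← sum_const]
    refine sum_le_sum fun D hD => ?_
    obtain ⟨d1, d2, d3, d4⟩ := mem_Sf.1 hD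
    rw [← d2, ← sum_deg d1 d3]
    calc ∑ d ∈ I, ∑ P ∈ Pr k Q d, (if P ∣ D then d else 0)
        = ∑ s ∈ I.sigma fun d => Pr k Q d, (if s.2 ∣ D then s.1 else 0) := by
          rw [sum_sigma]
      _ = ∑ s ∈ (I.sigma fun d => Pr k Q d).filter fun s => s.2 ∣ D, s.1 := by
          rw [sum_filter]
      _ = ∑ s ∈ (I.sigma fun d => Pr k Q d).filter fun s => s.2 ∣ D, s.2.natDegree := by
          refine sum_congr rfl fun s hs => ?_
          rw [mem_filter, mem_sigma] at hs
          exact ((mem_Pr.1 hs.1.2).2.2.1).symm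
      _ = ∑ P ∈ ((I.sigma fun d => Pr k Q d).filter fun s => s.2 ∣ D).image
            (fun s => s.2), P.natDegree := by
          rw [sum_image]
          rintro ⟨d, P⟩ hs ⟨d', P'⟩ hs' h
          simp only at h
          subst h
          rw [mem_coe, mem_filter, mem_sigma] at hs hs'
          have e1 := (mem_Pr.1 hs.1.2).2.2.1
          have e2 := (mem_Pr.1 hs'.1.2).2.2.1
          simp only at e1 e2
          rw [← e1, ← e2]
      _ ≤ ∑ P ∈ primes D, P.natDegree := by
          refine sum_le_sum_of_subset ?_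
          intro P hP
          obtain ⟨s, hs, rfl⟩ := mem_image.1 hP
          rw [mem_filter, mem_sigma] at hs
          obtain ⟨e1, e2, e3, e4⟩ := mem_Pr.1 hs.1.2
          exact (mem_primes d1.ne_zero).2 ⟨e1, e2, hs.2⟩
  have h2 : ∑ D ∈ Sf k Q n, ∑ d ∈ I, ∑ P ∈ Pr k Q d, (if P ∣ D then d else 0) =
      ∑ d ∈ I, ∑ P ∈ Pr k Q d, d * ((Sf k Q n).filter fun D => P ∣ D).card := by
    rw [sum_comm]
    refine sum_congr rfl fun d _ => ?_
    rw [sum_comm]
    refine sum_congr rfl fun P _ => ?_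
    rw [← sum_filter, sum_const, smul_eq_mul, mul_comm]
  rw [h2] at h1
  have h3 : ((∑ d ∈ I, ∑ P ∈ Pr k Q d, d * ((Sf k Q n).filter fun D => P ∣ D).card : ℕ) : ℝ) ≤
      ((n * (Sf k Q n).card : ℕ) : ℝ) := by exact_mod_cast h1
  push_cast at h3
  refine le_trans ?_ h3
  refine sum_le_sum fun d hd => ?_
  obtain ⟨hd1, hd2⟩ := hI d hd
  calc (d * ((Pr k Q d).card : ℝ)) * (((Sf k Q (n - d)).card : ℝ) -
      (Fintype.card k : ℝ) ^ (n - d) / (Fintype.card k : ℝ) ^ d)
      = ∑ P ∈ Pr k Q d, (d : ℝ) * (((Sf k Q (n - d)).card : ℝ) -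
          (Fintype.card k : ℝ) ^ (n - d) / (Fintype.card k : ℝ) ^ d) := by
        rw [sum_const, nsmul_eq_mul]
        ring
    _ ≤ _ := by
        refine sum_le_sum fun P hP => ?_
        exact mul_le_mul_of_nonneg_left (card_dvd_ge hP hd2) (by positivity)

/-- the trivial bound for the number of primes -/
theorem card_Pr_le (Q : k[X] → Prop) (n : ℕ) :
    (n : ℝ) * ((Pr k Q n).card : ℝ) ≤ (Fintype.card k : ℝ) ^ n := by
  classical
  rcases Nat.eq_zero_or_pos n with rfl | hn
  · simp
  obtain ⟨p, hp⟩ := CharP.exists k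
  haveI : Fact (Nat.Prime p) := ⟨CharP.char_is_prime k p⟩
  haveI : NeZero n := ⟨hn.ne'⟩
  let E := FiniteField.Extension k p n
  letI : Fintype E := Fintype.ofFinite E
  haveI : FiniteDimensional k E := Module.Finite.of_finite
  have hfr : Module.finrank k E = n := FiniteField.finrank_extension k p n
  have hcard : Fintype.card E = Fintype.card k ^ n := by
    rw [Module.card_eq_pow_finrank (K := k) (V := E), hfr]
  have h4 := card_gen (E := E) Q (fun x => Q (minpoly k x)) fun x hx => Iff.rfl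
  rw [hfr] at h4
  have h5 : n * (Pr k Q n).card ≤ Fintype.card k ^ n := by
    rw [← h4, ← hcard]
    exact card_le_univ _
  exact_mod_cast h5

/-- **Squarefree polynomials with prime factors in a set of positive density.** -/
theorem sqf_count (Q : k[X] → Prop) {s : ℕ} (hs : 1 ≤ s) {θ K : ℝ} (hθ : 0 < θ)
    (hθs : θ / s ≤ 1)
    (hQ : ∀ d : ℕ, d ≠ 0 → s ∣ d → θ * (Fintype.card k : ℝ) ^ d -
      K * Real.sqrt (Fintype.card k) ^ d ≤ d * ((Pr k Q d).card : ℝ)) :
    ∃ κ : ℝ, 0 < κ ∧ ∃ n0 : ℕ, ∀ n : ℕ, n0 ≤ n → s ∣ n →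
      κ * ((Fintype.card k : ℝ) ^ n * (n : ℝ) ^ (θ / s - 1)) ≤ ((Sf k Q n).card : ℝ) := by
  classical
  have hq2 : (1 : ℝ) < Fintype.card k := by exact_mod_cast Fintype.one_lt_card
  have hq0 : (0 : ℝ) < Fintype.card k := by linarith
  set q : ℝ := ((Fintype.card k : ℕ) : ℝ) with hqd
  have hsq1 : 1 < Real.sqrt q := by
    rw [show (1 : ℝ) = Real.sqrt 1 by simp]
    exact Real.sqrt_lt_sqrt zero_le_one hq2
  have hsq : Real.sqrt q * Real.sqrt q = q := Real.mul_self_sqrt hq0.le
  have hs0 : (0 : ℝ) < s := by exact_mod_cast hs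
  have hqs : 1 < q ^ s := one_lt_pow₀ hq2 (by omega)
  have hqss : 1 < Real.sqrt q ^ s := one_lt_pow₀ hsq1 (by omega)
  -- the sequences
  set b : ℕ → ℝ := fun m => ((Sf k Q (s * m)).card : ℝ) / q ^ (s * m) with hb
  set e : ℕ → ℝ := fun m => (m : ℝ) * ((Pr k Q (s * m)).card : ℝ) / q ^ (s * m) with he
  have he1 : ∀ m, e m ≤ 1 := by
    intro m
    rw [he]
    simp only
    rw [div_le_one (by positivity)]
    have h1 := card_Pr_le Q (s * m)
    push_cast at h1
    refine le_trans ?_ h1
    have h2 : (m : ℝ) ≤ s * m := by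
      have : (1 : ℝ) ≤ s := by exact_mod_cast hs
      nlinarith [(by positivity : (0 : ℝ) ≤ m)]
    exact mul_le_mul_of_nonneg_right h2 (by positivity)
  obtain ⟨κ, hκ, n0, hn0⟩ := seq_bound (γ := θ / s) (b := b) (e := e) (K := |K| / s)
    (r := (Real.sqrt q ^ s)⁻¹) (M := 1 / (1 - (q ^ s)⁻¹)) (ρ := (q ^ s)⁻¹) (by positivity) hθs
    (by positivity) (inv_lt_one_of_one_lt₀ hqss) (by positivity)
    (by
      have : (q ^ s)⁻¹ < 1 := inv_lt_one_of_one_lt₀ hqs
      have : 0 < 1 - (q ^ s)⁻¹ := by linarith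
      positivity) (by positivity) (inv_lt_one_of_one_lt₀ hqs)
    (fun n => by rw [hb]; positivity) (by
      rw [hb]
      simp only [mul_zero, pow_zero, div_one, card_Sf_zero, Nat.cast_one])
    (fun d => by rw [he]; positivity) (by
      intro d hd
      rw [he]
      simp only
      have h1 := hQ (s * d) (by positivity) (dvd_mul_right s d)
      have h2 : Real.sqrt q ^ (s * d) * Real.sqrt q ^ (s * d) = q ^ (s * d) := by
        rw [← mul_pow, hsq]
      have h3 : (0 : ℝ) < Real.sqrt q ^ (s * d) := by positivity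
      have h4 : ((Real.sqrt q ^ s)⁻¹) ^ d = Real.sqrt q ^ (s * d) / q ^ (s * d) := by
        rw [inv_pow, ← pow_mul, ← h2]
        field_simp
      rw [h4, le_div_iff₀ (by positivity)]
      push_cast at h1
      have h5 : K * Real.sqrt q ^ (s * d) ≤ |K| * Real.sqrt q ^ (s * d) :=
        mul_le_mul_of_nonneg_right (le_abs_self K) h3.le
      have h6 : (θ / s - |K| / s * (Real.sqrt q ^ (s * d) / q ^ (s * d))) * q ^ (s * d) =
          (θ * q ^ (s * d) - |K| * Real.sqrt q ^ (s * d)) / s := by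
        field_simp
      rw [h6, div_le_iff₀ hs0]
      calc θ * q ^ (s * d) - |K| * Real.sqrt q ^ (s * d)
          ≤ θ * q ^ (s * d) - K * Real.sqrt q ^ (s * d) := by linarith
        _ ≤ s * d * ((Pr k Q (s * d)).card : ℝ) := h1
        _ = (d : ℝ) * ((Pr k Q (s * d)).card : ℝ) * s := by ring) (by
      intro d1 n hd1 hn
      -- the recursive inequality for the multiples of `s`
      have h1 := sqf_rec Q (s * n) ((Icc d1 n).image fun d => s * d) (by
        intro d hd
        obtain ⟨d', hd', rfl⟩ := mem_image.1 hd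
        rw [mem_Icc] at hd'
        exact ⟨Nat.one_le_iff_ne_zero.2 (by
          have : 0 < s * d' := Nat.mul_pos (by omega) (by omega)
          omega), Nat.mul_le_mul_left s hd'.2⟩)
      rw [sum_image (by
        intro x _ y _ hxy
        exact Nat.eq_of_mul_eq_mul_left (by omega) hxy)] at h1
      have hqn : (0 : ℝ) < q ^ (s * n) := by positivity
      have h2 : ∀ d ∈ Icc d1 n, s * (e d * b (n - d) - e d * (q ^ s)⁻¹ ^ d) * q ^ (s * n) =
          (((s * d : ℕ) : ℝ) * ((Pr k Q (s * d)).card : ℝ)) *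
            (((Sf k Q (s * n - s * d)).card : ℝ) - q ^ (s * n - s * d) / q ^ (s * d)) := by
        intro d hd
        rw [mem_Icc] at hd
        have e1 : s * n - s * d = s * (n - d) := (Nat.mul_sub s n d).symm
        have e2 : q ^ (s * n) = q ^ (s * (n - d)) * q ^ (s * d) := by
          rw [← pow_add, ← Nat.mul_add, Nat.sub_add_cancel hd.2]
        rw [e1, he, hb]
        simp only
        rw [e2, inv_pow, ← pow_mul]
        push_cast
        field_simp
      have h3 : (∑ d ∈ Icc d1 n, (e d * b (n - d) - e d * (q ^ s)⁻¹ ^ d)) * (s * q ^ (s * n)) ≤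
          (s * q ^ (s * n)) * (n * b n) := by
        calc (∑ d ∈ Icc d1 n, (e d * b (n - d) - e d * (q ^ s)⁻¹ ^ d)) * (s * q ^ (s * n))
            = ∑ d ∈ Icc d1 n, s * (e d * b (n - d) - e d * (q ^ s)⁻¹ ^ d) * q ^ (s * n) := by
              rw [sum_mul]
              refine sum_congr rfl fun d _ => by ring
          _ = ∑ d ∈ Icc d1 n, (((s * d : ℕ) : ℝ) * ((Pr k Q (s * d)).card : ℝ)) *
            (((Sf k Q (s * n - s * d)).card : ℝ) - q ^ (s * n - s * d) / q ^ (s * d)) :=
              sum_congr rfl h2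
          _ ≤ ((s * n : ℕ) : ℝ) * ((Sf k Q (s * n)).card : ℝ) := h1
          _ = (s * q ^ (s * n)) * (n * b n) := by
              rw [hb]
              simp only
              push_cast
              field_simp
      have h4 : ∑ d ∈ Icc d1 n, (e d * b (n - d) - e d * (q ^ s)⁻¹ ^ d) ≤ n * b n := by
        rw [mul_comm] at h3
        exact le_of_mul_le_mul_left h3 (by positivity)
      rw [sum_sub_distrib] at h4
      have h5 : ∑ d ∈ Icc d1 n, e d * (q ^ s)⁻¹ ^ d ≤ 1 / (1 - (q ^ s)⁻¹) * (q ^ s)⁻¹ ^ d1 := by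
        have r0 : (0 : ℝ) ≤ (q ^ s)⁻¹ := by positivity
        have r1 : (q ^ s)⁻¹ < 1 := inv_lt_one_of_one_lt₀ hqs
        calc ∑ d ∈ Icc d1 n, e d * (q ^ s)⁻¹ ^ d ≤ ∑ d ∈ Icc d1 n, (q ^ s)⁻¹ ^ d := by
              refine sum_le_sum fun d _ => ?_
              have := mul_le_mul_of_nonneg_right (he1 d) (pow_nonneg r0 d)
              rwa [one_mul] at this
          _ ≤ ∑ d ∈ Ico d1 (n + 1), (q ^ s)⁻¹ ^ d := by
              refine sum_le_sum_of_subset_of_nonneg ?_ fun d _ _ => by positivity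
              intro d hd
              rw [mem_Icc] at hd
              rw [mem_Ico]
              omega
          _ ≤ (q ^ s)⁻¹ ^ d1 / (1 - (q ^ s)⁻¹) := by
              exact geom_sum_Ico_le_of_lt_one r0 r1
          _ = 1 / (1 - (q ^ s)⁻¹) * (q ^ s)⁻¹ ^ d1 := by ring
      linarith)
  refine ⟨κ, hκ, s * n0, fun n hn hsn => ?_⟩
  obtain ⟨m, rfl⟩ := hsn
  have hm : n0 ≤ m := Nat.le_of_mul_le_mul_left hn (by omega)
  have h1 := hn0 m hm
  rw [hb] at h1
  simp only at h1
  rw [le_div_iff₀ (by positivity)] at h1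
  refine le_trans ?_ h1
  have h2 : ((s * m : ℕ) : ℝ) ^ (θ / s - 1) ≤ (m : ℝ) ^ (θ / s - 1) := by
    rcases Nat.eq_zero_or_pos m with rfl | hm0
    · simp
    · apply Real.rpow_le_rpow_of_nonpos (by exact_mod_cast hm0)
      · push_cast
        have : (1 : ℝ) ≤ s := by exact_mod_cast hs
        nlinarith [(by positivity : (0 : ℝ) ≤ m)]
      · linarith
  calc κ * (q ^ (s * m) * ((s * m : ℕ) : ℝ) ^ (θ / s - 1))
      ≤ κ * (q ^ (s * m) * (m : ℝ) ^ (θ / s - 1)) := by
        apply mul_le_mul_of_nonneg_left _ hκ.le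
        exact mul_le_mul_of_nonneg_left h2 (by positivity)
    _ = κ * (m : ℝ) ^ (θ / s - 1) * q ^ (s * m) := by ring

end sqf

end Pool.Agent.V8H26.TC
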