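import Pool.Agent.V8H26.TC.Cub
import Pool.Agent.R410.PW.Weil
import Pool.Agent.R939.FF.Cnt

/-!
# Cubic polynomials over `k[t]`: the number of parameters without a root
-/

set_option autoImplicit false
set_option linter.all false
set_option maxHeartbeats 4000000

namespace Pool.Agent.V8H26.TC

open Polynomial Finset
open Pool.Agent.R410.PW (WC weil)

section irr

/-- the discriminant -/
noncomputable def dsc {R : Type} [CommRing R] (a b : R) : R := -(4 * a ^ 3 + 27 * b ^ 2)

theorem dsc_map {R S : Type} [CommRing R] [CommRing S] (φ : R →+* S) (a b : R) :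
    φ (dsc a b) = dsc (φ a) (φ b) := by
  unfold dsc
  simp only [map_neg, map_add, map_mul, map_pow, map_ofNat]

/-- the resultant identity -/
theorem bezout {R : Type} [CommRing R] (a b : R) :
    (C (18 * a) * X - C (27 * b)) * cubP a b +
      (-(C (6 * a) * X ^ 2 - C (9 * b) * X + C (4 * a ^ 2))) * derivative (cubP a b) =
        C (dsc a b) := by
  unfold cubP dsc
  simp only [derivative_add, derivative_mul, derivative_X_pow, derivative_C, derivative_X,
    map_mul, map_neg, map_add, map_pow, Nat.cast_ofNat, zero_mul, mul_one, zero_add, add_zero,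
    map_ofNat, Nat.add_one_sub_one]
  ring

theorem irr_of_noroot {R : Type} [CommRing R] [IsDomain R] {a b : R}
    (h : ∀ r : R, r ^ 3 + a * r + b ≠ 0) : Irreducible (cubP a b) := by
  refine ((cubP_monic a b).irreducible_iff_roots_eq_zero_of_degree_le_three
    (by rw [cubP_natDegree]; norm_num) (by rw [cubP_natDegree])).2 ?_
  rw [Multiset.eq_zero_iff_forall_notMem]
  intro x hx
  rw [mem_roots (cubP_monic a b).ne_zero, IsRoot.def, cubP_eval] at hx
  exact h x hx

theorem cubP_map {R S : Type} [CommRing R] [CommRing S] (φ : R →+* S) (a b : R) :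
    (cubP a b).map φ = cubP (φ a) (φ b) := by
  unfold cubP
  simp

end irr

section pts

variable {E : Type} [Field E] [Fintype E] [DecidableEq E]

/-- the points of the cubic curve -/
theorem sum_card (a b : E[X]) :
    ({z : E × E | evalEval z.1 z.2 (cubP a b) = 0}.ncard) =
      ∑ x : E, (rts (a.eval x) (b.eval x)).card := by
  classical
  have h1 : {z : E × E | evalEval z.1 z.2 (cubP a b) = 0} =
      ((univ.sigma fun x : E => rts (a.eval x) (b.eval x)).image
        (fun s : (_ : E) × E => (s.1, s.2)) : Finset (E × E)) := by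
    ext ⟨x, y⟩
    rw [Set.mem_setOf_eq, coe_image, Set.mem_image]
    unfold evalEval
    rw [cubP_eval]
    simp only [eval_add, eval_mul, eval_pow, eval_C]
    constructor
    · intro h
      refine ⟨⟨x, y⟩, ?_, rfl⟩
      rw [mem_coe, mem_sigma]
      exact ⟨mem_univ _, mem_rts.2 h⟩
    · rintro ⟨⟨x', y'⟩, h, h'⟩
      rw [mem_coe, mem_sigma] at h
      rw [Prod.mk.injEq] at h'
      obtain ⟨rfl, rfl⟩ := h'
      exact mem_rts.1 h.2
  rw [h1, Set.ncard_coe_finset, card_image_of_injective, card_sigma]
  rintro ⟨x, y⟩ ⟨x', y'⟩ h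
  rw [Prod.mk.injEq] at h
  obtain ⟨rfl, rfl⟩ := h
  rfl

theorem pts_bound {a b : E[X]} (hno : ∀ r : (AlgebraicClosure E)[X],
      r ^ 3 + a.map (algebraMap E (AlgebraicClosure E)) * r +
        b.map (algebraMap E (AlgebraicClosure E)) ≠ 0)
    (hδ : dsc a b ≠ 0) {d e : ℕ} (hda : a.natDegree ≤ d) (hdb : b.natDegree ≤ d)
    (he : (dsc a b).natDegree ≤ e) :
    |((∑ x : E, (rts (a.eval x) (b.eval x)).card : ℕ) : ℝ) - Nat.card E| ≤
      WC 3 d e * Real.sqrt (Nat.card E) := by
  have h := weil (F := E) (AlgebraicClosure E) (cubP_monic a b)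
    (by rw [cubP_natDegree]; norm_num) (bezout a b) hδ he (d := d) (fun i => ?_) ?_
  · rw [sum_card, cubP_natDegree] at h
    exact h
  · unfold cubP
    rw [coeff_add, coeff_add, coeff_X_pow, coeff_C_mul, coeff_X, coeff_C]
    rcases i with _ | _ | _ | _ | i
    · simpa using hdb
    · simpa using hda
    · simp
    · simp
    · simp
  · rw [cubP_map]
    exact irr_of_noroot hno

end pts

section trans

variable {k E : Type} [Field k] [Field E] [Algebra k E] [Algebra.IsAlgebraic k E]

/-- transfer of geometric irreducibility to an algebraic extension -/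
theorem noroot_ext {a b : k[X]} (hno : ∀ r : (AlgebraicClosure k)[X],
      r ^ 3 + a.map (algebraMap k (AlgebraicClosure k)) * r +
        b.map (algebraMap k (AlgebraicClosure k)) ≠ 0) (r : (AlgebraicClosure E)[X]) :
      r ^ 3 + (a.map (algebraMap k E)).map (algebraMap E (AlgebraicClosure E)) * r +
        (b.map (algebraMap k E)).map (algebraMap E (AlgebraicClosure E)) ≠ 0 := by
  intro h
  haveI : Algebra.IsAlgebraic k (AlgebraicClosure E) := Algebra.IsAlgebraic.trans k E _
  let φ : AlgebraicClosure E →ₐ[k] AlgebraicClosure k := IsAlgClosed.lift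
  have h1 := congrArg (Polynomial.map (φ : AlgebraicClosure E →+* AlgebraicClosure k)) h
  rw [Polynomial.map_add, Polynomial.map_add, Polynomial.map_mul, Polynomial.map_pow,
    Polynomial.map_zero, Polynomial.map_map, Polynomial.map_map, Polynomial.map_map,
    Polynomial.map_map] at h1
  have e : ((φ : AlgebraicClosure E →+* AlgebraicClosure k).comp
      (algebraMap E (AlgebraicClosure E))).comp (algebraMap k E) =
        algebraMap k (AlgebraicClosure k) := by
    ext x
    rw [RingHom.comp_apply, RingHom.comp_apply,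
      ← IsScalarTower.algebraMap_apply k E (AlgebraicClosure E)]
    exact φ.commutes x
  rw [e] at h1
  exact hno _ h1

end trans

end Pool.Agent.V8H26.TC
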